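import Mathlib

/-!
# Replacing one rank of a face lattice: the combinatorial part
-/

set_option autoImplicit false

namespace Pool.Agent.R475.Eul

open Finset

universe u v

/-- graded posets with meets, the diamond property and connected sets of atoms -/
structure PL (L : Type u) [PartialOrder L] (ρ : L → ℕ) : Prop where
  mono : ∀ {x y : L}, x < y → ρ x < ρ y
  mid : ∀ {x y : L}, x ≤ y → ∀ k, ρ x ≤ k → k ≤ ρ y → ∃ z, x ≤ z ∧ z ≤ y ∧ ρ z = k
  meet : ∀ x y : L, ∃ m, m ≤ x ∧ m ≤ y ∧ ∀ z, z ≤ x → z ≤ y → z ≤ m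
  dia : ∀ {x y : L}, x < y → ρ y = ρ x + 2 →
    ∃ a b, a ≠ b ∧ ∀ z, (x < z ∧ z < y) ↔ (z = a ∨ z = b)
  uc : ∀ {z w : L}, ρ z + 2 ≤ ρ w → ∀ A : Set L,
    (∃ a ∈ A, z < a ∧ a ≤ w ∧ ρ a = ρ z + 1) →
    (∀ a ∈ A, z < a → a ≤ w → ρ a = ρ z + 1 → ∀ a', z < a' → ρ a' = ρ z + 1 →
      ∀ c, a ≤ c → a' ≤ c → c ≤ w → ρ c = ρ z + 2 → a' ∈ A) →
    ∀ b, z < b → b ≤ w → ρ b = ρ z + 1 → b ∈ A

section Lat

variable {L : Type u} [PartialOrder L] {ρ : L → ℕ} (h : PL L ρ)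
include h

lemma PL.eq_of_le {x y : L} (hxy : x ≤ y) (hr : ρ y ≤ ρ x) : x = y := by
  rcases hxy.lt_or_eq with h1 | h1
  · exact absurd (h.mono h1) (not_lt.2 hr)
  · exact h1

lemma PL.lt_of_le {x y : L} (hxy : x ≤ y) (hr : ρ x < ρ y) : x < y := by
  rcases hxy.lt_or_eq with h1 | h1
  · exact h1
  · rw [h1] at hr
    exact absurd hr (lt_irrefl _)

lemma PL.le_rank {x y : L} (hxy : x ≤ y) : ρ x ≤ ρ y := by
  rcases hxy.lt_or_eq with h1 | h1
  · exact (h.mono h1).le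
  · rw [h1]

lemma PL.uniq {a a' t t' : L} (hne : a ≠ a') (hr : ρ a = ρ a') (h1 : a ≤ t) (h2 : a' ≤ t)
    (h3 : a ≤ t') (h4 : a' ≤ t') (ht : ρ t = ρ a + 1) (ht' : ρ t' = ρ a + 1) : t = t' := by
  obtain ⟨m, hm1, hm2, hm⟩ := h.meet t t'
  have ha := hm a h1 h3
  have ha' := hm a' h2 h4
  have h5 : ρ a < ρ m := by
    refine h.mono (lt_of_le_of_ne ha fun heq => ?_)
    rw [← heq] at ha'
    exact hne (h.eq_of_le ha' hr.le).symm
  have h6 := h.eq_of_le hm1 (by omega)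
  have h7 := h.eq_of_le hm2 (by omega)
  rw [← h6, ← h7]

lemma PL.join2 {a a' b b' : L} (hne : a ≠ a') (hne' : b ≠ b') (hr : ρ a = ρ a')
    (hb : ρ b = ρ a + 2) (hb' : ρ b' = ρ a + 2) (h1 : a ≤ b) (h2 : a' ≤ b) (h3 : a ≤ b')
    (h4 : a' ≤ b') : ∃ t, ρ t = ρ a + 1 ∧ a < t ∧ a' < t ∧ t < b ∧ t < b' ∧
      ∀ x, x ≤ b → x ≤ b' → x ≤ t := by
  obtain ⟨m, hm1, hm2, hm⟩ := h.meet b b'
  have ha := hm a h1 h3
  have ha' := hm a' h2 h4
  have h5 : ρ a < ρ m := by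
    refine h.mono (lt_of_le_of_ne ha fun heq => ?_)
    rw [← heq] at ha'
    exact hne (h.eq_of_le ha' hr.le).symm
  have h6 : ρ m < ρ b := by
    refine h.mono (lt_of_le_of_ne hm1 fun heq => ?_)
    rw [heq] at hm2
    exact hne' (h.eq_of_le hm2 (by omega))
  have h7 : ρ m = ρ a + 1 := by omega
  exact ⟨m, h7, h.lt_of_le ha (by omega), h.lt_of_le ha' (by omega), h.lt_of_le hm1 (by omega),
    h.lt_of_le hm2 (by omega), hm⟩

/-- a nonempty adjacency closed set of coatoms of `[z, t]` contains all coatoms -/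
lemma PL.lc {t : L} (A : Set L)
    (hA : ∀ x ∈ A, x < t → ρ x + 1 = ρ t → ∀ s, s < x → ρ s + 2 = ρ t → ∀ x', s < x' → x' < t →
      x' ∈ A) :
    ∀ k : ℕ, ∀ z, z < t → ρ z + k = ρ t → (∃ x ∈ A, z ≤ x ∧ x < t ∧ ρ x + 1 = ρ t) →
      ∀ x, z ≤ x → x < t → ρ x + 1 = ρ t → x ∈ A := by
  intro k
  induction k with
  | zero =>
    intro z hz hk
    have := h.mono hz
    omega
  | succ k ih =>
    rintro z hz hk ⟨x, hx, hzx, hxt, hrx⟩ x' hzx' hxt' hrx'
    rcases Nat.lt_or_ge k 1 with h1 | h1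
    · have h2 := h.eq_of_le hzx (by omega)
      have h3 := h.eq_of_le hzx' (by omega)
      rw [← h3, h2]
      exact hx
    rcases Nat.lt_or_ge k 2 with h2 | h2
    · refine hA x hx hxt hrx z (h.lt_of_le hzx (by omega)) (by omega) x' ?_ hxt'
      exact h.lt_of_le hzx' (by omega)
    -- atoms below a member of `A`
    have huc := h.uc (z := z) (w := t) (by omega)
      {v | ∃ x ∈ A, v ≤ x ∧ x < t ∧ ρ x + 1 = ρ t} ?_ ?_
    · obtain ⟨v, hzv, hvx, hrv⟩ := h.mid hzx' (ρ z + 1) (by omega) (by omega)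
      obtain ⟨y, hy, hvy, hyt, hry⟩ := huc v (h.lt_of_le hzv (by omega)) (hvx.trans hxt'.le) hrv
      exact ih v (lt_of_le_of_lt hvx hxt') (by omega) ⟨y, hy, hvy, hyt, hry⟩ x' hvx hxt' hrx'
    · obtain ⟨v, hzv, hvx, hrv⟩ := h.mid hzx (ρ z + 1) (by omega) (by omega)
      exact ⟨v, ⟨x, hx, hvx, hxt, hrx⟩, h.lt_of_le hzv (by omega), hvx.trans hxt.le, hrv⟩
    · rintro v ⟨y, hy, hvy, hyt, hry⟩ hzv hvt hrv v' hzv' hrv' c hvc hv'c hct hrc
      obtain ⟨y', hcy, hyt', hry'⟩ := h.mid hct (ρ t - 1) (by omega) (by omega)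
      have h5 : y' < t := h.lt_of_le hyt' (by omega)
      refine ⟨y', ?_, hv'c.trans hcy, h5, by omega⟩
      exact ih v (lt_of_le_of_lt hvy hyt) (by omega) ⟨y, hy, hvy, hyt, hry⟩ y'
        (hvc.trans hcy) h5 (by omega)

end Lat

/-- the elements `E` of rank `R` of a second poset which agrees with `L` in all other ranks -/
structure Sys {L : Type u} [PartialOrder L] (ρ : L → ℕ) (R : ℕ) (E : Type v)
    (blw : L → E → Prop) (abv : E → L → Prop) : Prop where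
  down : ∀ {x x' : L} {e : E}, x' ≤ x → ρ x < R → blw x e → blw x' e
  up : ∀ {y y' : L} {e : E}, y ≤ y' → R < ρ y → abv e y → abv e y'
  lt : ∀ {x y : L} {e : E}, ρ x < R → R < ρ y → blw x e → abv e y → x < y
  exz : ∀ e : E, ∃ z, ρ z + 2 = R ∧ blw z e
  exw : ∀ e : E, ∃ w, ρ w = R + 2 ∧ abv e w
  two_below : ∀ {z : L} {e : E}, ρ z + 2 = R → blw z e → ∃ a b, a ≠ b ∧
    ∀ x, (z < x ∧ ρ x + 1 = R ∧ blw x e) ↔ (x = a ∨ x = b)
  two_above : ∀ {w : L} {e : E}, ρ w = R + 2 → abv e w → ∃ a b, a ≠ b ∧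
    ∀ y, (y < w ∧ ρ y = R + 1 ∧ abv e y) ↔ (y = a ∨ y = b)
  two : ∀ {x y : L}, x < y → ρ x + 1 = R → ρ y = R + 1 → ∃ a b : E, a ≠ b ∧
    ∀ e, (blw x e ∧ abv e y) ↔ (e = a ∨ e = b)

section Main

variable {L : Type u} [PartialOrder L] {ρ : L → ℕ} (h : PL L ρ) {R : ℕ} {E : Type v}
  {blw : L → E → Prop} {abv : E → L → Prop} (s : Sys ρ R E blw abv)
include h s

/-- the element of `L` which corresponds to `e` -/
lemma exists_t {bot top : L} (hbot : ∀ x, bot ≤ x) (htop : ∀ x, x ≤ top)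
    (hrt : R + 2 ≤ ρ top) (e : E) : ∃ t : L, ρ t = R ∧
      (∀ x, ρ x + 1 = R → (blw x e ↔ x < t)) ∧ ∀ y, ρ y = R + 1 → (abv e y ↔ t < y) := by
  obtain ⟨z, hz, hze⟩ := s.exz e
  obtain ⟨w, hw, hwe⟩ := s.exw e
  obtain ⟨a, a', haa, ha⟩ := s.two_below hz hze
  obtain ⟨b, b', hbb, hb⟩ := s.two_above hw hwe
  have ha1 := (ha a).2 (Or.inl rfl)
  have ha2 := (ha a').2 (Or.inr rfl)
  have hb1 := (hb b).2 (Or.inl rfl)
  have hb2 := (hb b').2 (Or.inr rfl)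
  have hlt : ∀ {x y : L}, ρ x + 1 = R → ρ y = R + 1 → blw x e → abv e y → x ≤ y := by
    intro x y hx hy hxe hye
    exact (s.lt (by omega) (by omega) hxe hye).le
  obtain ⟨t, ht, hat, hat', htb, htb', hmeet⟩ := h.join2 haa hbb (by omega) (by omega) (by omega)
    (hlt ha1.2.1 hb1.2.1 ha1.2.2 hb1.2.2) (hlt ha2.2.1 hb1.2.1 ha2.2.2 hb1.2.2)
    (hlt ha1.2.1 hb2.2.1 ha1.2.2 hb2.2.2) (hlt ha2.2.1 hb2.2.1 ha2.2.2 hb2.2.2)
  have htR : ρ t = R := by omega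
  have hlow : ∀ x, ρ x + 1 = R → blw x e → x < t := by
    intro x hx hxe
    exact h.lt_of_le (hmeet x (hlt hx hb1.2.1 hxe hb1.2.2) (hlt hx hb2.2.1 hxe hb2.2.2)) (by omega)
  have hhigh : ∀ y, ρ y = R + 1 → abv e y → t < y := by
    intro y hy hye
    by_cases hyb : y = b
    · rw [hyb]; exact htb
    · obtain ⟨t2, ht2, hat2, hat2', hty, _, _⟩ := h.join2 haa hyb (by omega) (by omega) (by omega)
        (hlt ha1.2.1 hy ha1.2.2 hye) (hlt ha2.2.1 hy ha2.2.2 hye)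
        (hlt ha1.2.1 hb1.2.1 ha1.2.2 hb1.2.2) (hlt ha2.2.1 hb1.2.1 ha2.2.2 hb1.2.2)
      have h1 : t = t2 := h.uniq haa (by omega) hat.le hat'.le hat2.le hat2'.le (by omega) (by omega)
      rw [h1]; exact hty
  refine ⟨t, htR, fun x hx => ⟨hlow x hx, fun hxt => ?_⟩, fun y hy => ⟨hhigh y hy, fun hty => ?_⟩⟩
  · refine h.lc (t := t) {x | blw x e} ?_ (ρ t - ρ bot) bot ?_ ?_ ⟨a, ha1.2.2, hbot a, hat, by omega⟩
      x (hbot x) hxt (by omega)
    · intro x hxe hxt hrx q hqx hrq x' hqx' hxt'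
      have hqe : blw q e := s.down hqx.le (by omega) hxe
      obtain ⟨c, c', hcc, hc⟩ := s.two_below (by omega) hqe
      obtain ⟨p, p', hpp, hp⟩ := h.dia (hqx.trans hxt) (by omega)
      have hc1 := (hc c).2 (Or.inl rfl)
      have hc2 := (hc c').2 (Or.inr rfl)
      have h1 := (hp c).1 ⟨hc1.1, hlow c hc1.2.1 hc1.2.2⟩
      have h2 := (hp c').1 ⟨hc2.1, hlow c' hc2.2.1 hc2.2.2⟩
      have h3 := (hp x').1 ⟨hqx', hxt'⟩
      have h4 : x' = c ∨ x' = c' := by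
        rcases h1 with h1 | h1 <;> rcases h2 with h2 | h2 <;> rcases h3 with h3 | h3
        · exact absurd (h1.trans h2.symm) hcc
        · exact absurd (h1.trans h2.symm) hcc
        · exact Or.inl (h3.trans h1.symm)
        · exact Or.inr (h3.trans h2.symm)
        · exact Or.inr (h3.trans h2.symm)
        · exact Or.inl (h3.trans h1.symm)
        · exact absurd (h1.trans h2.symm) hcc
        · exact absurd (h1.trans h2.symm) hcc
      rcases h4 with rfl | rfl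
      · exact hc1.2.2
      · exact hc2.2.2
    · exact lt_of_le_of_lt (hbot a) hat
    · have := h.le_rank (hbot t)
      omega
  · refine h.uc (z := t) (w := top) (by omega) {y | abv e y} ⟨b, hb1.2.2, htb, htop b, by omega⟩ ?_ y
      hty (htop y) (by omega)
    intro y hye hty _ hry y' hty' hry' c hyc hy'c _ hrc
    have hce : abv e c := s.up hyc (by omega) hye
    obtain ⟨d, d', hdd, hd⟩ := s.two_above (by omega) hce
    obtain ⟨p, p', hpp, hp⟩ := h.dia (lt_of_lt_of_le hty hyc) (by omega)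
    have hd1 := (hd d).2 (Or.inl rfl)
    have hd2 := (hd d').2 (Or.inr rfl)
    have h1 := (hp d).1 ⟨hhigh d hd1.2.1 hd1.2.2, hd1.1⟩
    have h2 := (hp d').1 ⟨hhigh d' hd2.2.1 hd2.2.2, hd2.1⟩
    have h3 := (hp y').1 ⟨hty', h.lt_of_le hy'c (by omega)⟩
    have h4 : y' = d ∨ y' = d' := by
      rcases h1 with h1 | h1 <;> rcases h2 with h2 | h2 <;> rcases h3 with h3 | h3
      · exact absurd (h1.trans h2.symm) hdd
      · exact absurd (h1.trans h2.symm) hdd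
      · exact Or.inl (h3.trans h1.symm)
      · exact Or.inr (h3.trans h2.symm)
      · exact Or.inr (h3.trans h2.symm)
      · exact Or.inl (h3.trans h1.symm)
      · exact absurd (h1.trans h2.symm) hdd
      · exact absurd (h1.trans h2.symm) hdd
    rcases h4 with rfl | rfl
    · exact hd1.2.2
    · exact hd2.2.2

end Main

end Pool.Agent.R475.Eul
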