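import Pool.Agent.R475.Eul.Geo
import Pool.Agent.R475.Eul.Comb

/-!
# The diamond property and the connectivity of faces
-/

set_option autoImplicit false

namespace Pool.Agent.R475.Eul

open Set Module

variable {V : Type} [AddCommGroup V] [Module ℝ V] [FiniteDimensional ℝ V]
variable {T : Set V}

lemma exists_mem_of_rk {A B : Set V} (hr : rk A < rk B) : ∃ v ∈ B, v ∉ A := by
  by_contra hc
  push Not at hc
  exact absurd (rk_mono (show B ⊆ A from hc)) (not_le.2 hr)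

lemma exists_mid (hT : T.Finite) {w : Set V} (hw : IsF T w) : ∀ n : ℕ, ∀ z : Set V, IsF T z →
    z ⊆ w → rk z + n ≤ rk w → ∃ a, IsF T a ∧ z ⊆ a ∧ a ⊆ w ∧ rk a = rk z + n := by
  intro n
  induction n with
  | zero => exact fun z hz hzw _ => ⟨z, hz, Subset.rfl, hzw, rfl⟩
  | succ n ih =>
    intro z hz hzw hr
    obtain ⟨a, ha, hza, haw, hra⟩ := exists_atom hT hz hw hzw (exists_mem_of_rk (by omega))
    obtain ⟨b, hb, hab, hbw, hrb⟩ := ih a ha haw (by omega)
    exact ⟨b, hb, hza.trans hab, hbw, by omega⟩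

lemma exists_dia (hT : T.Finite) {z w : Set V} (hz : IsF T z) (hw : IsF T w) (hzw : z ⊆ w)
    (hr : rk w = rk z + 2) : ∃ a b, (IsF T a ∧ z ⊆ a ∧ a ⊆ w ∧ rk a = rk z + 1) ∧
      (IsF T b ∧ z ⊆ b ∧ b ⊆ w ∧ rk b = rk z + 1) ∧ a ≠ b ∧
      ∀ c, IsF T c → z ⊆ c → c ⊆ w → rk c = rk z + 1 → c = a ∨ c = b := by
  obtain ⟨a, ha, hza, haw, hra⟩ := exists_atom hT hz hw hzw (exists_mem_of_rk (by omega))
  obtain ⟨f, hf0, hfp, hfn⟩ := hz.exists_f
  obtain ⟨ga, hga0, hgap, hgan⟩ := ha.exists_f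
  obtain ⟨u', hu'a, hu'z⟩ := exists_mem_of_rk (A := z) (B := a) (by omega)
  obtain ⟨x, hxw, hxa⟩ := exists_mem_of_rk (A := a) (B := w) (by omega)
  obtain ⟨m, hm1, ⟨u, huw, huz, hum⟩, hmle⟩ := tilt hT hw (exists_mem_of_rk (A := z) (by omega)) hf0
    (fun v hv hvz => hfp v (hw.subset hv) hvz) (g := -ga)
    (fun v hv => by rw [LinearMap.neg_apply, hga0 v (hza hv), neg_zero])
  set a' : Set V := {v | v ∈ w ∧ (-ga) v = m * f v} with ha'
  have hxz : x ∉ z := fun h => hxa (hza h)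
  have hm : m < 0 := by
    have h1 := hmle x hxw
    have h2 := hgap x (hw.subset hxw) hxa
    have h3 := hfp x (hw.subset hxw) hxz
    rw [LinearMap.neg_apply] at h1
    by_contra hc
    push Not at hc
    have := mul_nonneg hc h3.le
    linarith
  have hza' : z ⊆ a' := fun v hv => ⟨hzw hv, by
    rw [LinearMap.neg_apply, hga0 v (hza hv), hf0 v hv, mul_zero, neg_zero]⟩
  have ha'w : a' ⊆ w := fun v hv => hv.1
  have hu'a' : u' ∉ a' := by
    rintro ⟨_, h1⟩
    rw [LinearMap.neg_apply, hga0 u' hu'a, neg_zero] at h1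
    have h2 := hfp u' (ha.subset hu'a) hu'z
    have := mul_neg_of_neg_of_pos hm h2
    linarith
  have hra' : rk a' = rk z + 1 := by
    have h1 := rk_lt hz hm1.subset hza' ⟨u, ⟨huw, hum⟩, huz⟩
    have h2 := rk_lt hm1 hw.subset ha'w ⟨u', haw hu'a, hu'a'⟩
    omega
  have hgau : 0 < ga u := by
    rw [LinearMap.neg_apply] at hum
    have h2 := hfp u (hw.subset huw) huz
    have := mul_neg_of_neg_of_pos hm h2
    linarith
  have hua : u ∉ a := fun h => by
    rw [hga0 u h] at hgau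
    exact lt_irrefl _ hgau
  refine ⟨a, a', ⟨ha, hza, haw, hra⟩, ⟨hm1, hza', ha'w, hra'⟩, fun heq => ?_, ?_⟩
  · exact hu'a' (heq ▸ hu'a)
  intro c hc hzc hcw hrc
  obtain ⟨gc, hgc0, hgcp, hgcn⟩ := hc.exists_f
  let g' : V →ₗ[ℝ] ℝ := -ga - m • f
  have hg' : ∀ v, g' v = -ga v - m * f v := fun v => rfl
  have hg'n : ∀ v ∈ w, 0 ≤ g' v := by
    intro v hv
    have h1 := hmle v hv
    rw [LinearMap.neg_apply] at h1
    rw [hg']
    linarith
  have hg'0 : ∀ v ∈ w, (g' v = 0 ↔ v ∈ a') := by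
    intro v hv
    rw [hg']
    constructor
    · intro h1
      refine ⟨hv, ?_⟩
      rw [LinearMap.neg_apply]
      linarith
    · rintro ⟨_, h1⟩
      rw [LinearMap.neg_apply] at h1
      linarith
  have hg'u' : 0 < g' u' := by
    rcases (hg'n u' (haw hu'a)).lt_or_eq with h1 | h1
    · exact h1
    · exact absurd ((hg'0 u' (haw hu'a)).1 h1.symm) hu'a'
  have hg'u : g' u = 0 := (hg'0 u huw).2 ⟨huw, hum⟩
  set α := gc u / ga u with hα
  set β := gc u' / g' u' with hβ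
  have hαn : 0 ≤ α := div_nonneg (hgcn u (hw.subset huw)) hgau.le
  have hβn : 0 ≤ β := div_nonneg (hgcn u' (ha.subset hu'a)) hg'u'.le
  let G : V →ₗ[ℝ] ℝ := gc - α • ga - β • g'
  have hG : ∀ v, G v = gc v - α * ga v - β * g' v := fun v => rfl
  have hGz : ∀ v ∈ z, G v = 0 := by
    intro v hv
    rw [hG, hgc0 v (hzc hv), hga0 v (hza hv), hg', hga0 v (hza hv), hf0 v hv]
    ring
  have hGu' : G u' = 0 := by
    rw [hG, hga0 u' hu'a, hβ, div_mul_cancel₀ _ hg'u'.ne']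
    ring
  have hGu : G u = 0 := by
    rw [hG, hg'u, hα, div_mul_cancel₀ _ hgau.ne']
    ring
  have hGa : ∀ v ∈ a, G v = 0 := by
    intro v hv
    obtain ⟨k, hk⟩ := prop_atom hz ha.subset hza hra hu'a hu'z hv
    rw [hk G hGz, hGu', mul_zero]
  have hGw : ∀ v ∈ w, G v = 0 := by
    intro v hv
    obtain ⟨k, hk⟩ := prop_atom ha hw.subset haw (by omega) huw hua hv
    rw [hk G hGa, hGu, mul_zero]
  have hcomb : ∀ v ∈ w, gc v = α * ga v + β * g' v := by
    intro v hv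
    have h1 := hGw v hv
    rw [hG] at h1
    linarith
  have hcmem : ∀ v ∈ w, gc v = 0 → v ∈ c := by
    intro v hv h1
    by_contra h2
    exact absurd h1 (hgcp v (hw.subset hv) h2).ne'
  rcases hαn.lt_or_eq with hα1 | hα1
  · rcases hβn.lt_or_eq with hβ1 | hβ1
    · exfalso
      have h1 : ∀ v ∈ c, v ∈ a ∧ v ∈ a' := by
        intro v hv
        have h2 := hcomb v (hcw hv)
        rw [hgc0 v hv] at h2
        have h3 := hgan v (hc.subset hv)
        have h4 := hg'n v (hcw hv)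
        have h5 : α * ga v = 0 := by
          have := mul_nonneg hα1.le h3
          have := mul_nonneg hβ1.le h4
          linarith
        have h6 : β * g' v = 0 := by linarith
        have h7 : ga v = 0 := (mul_eq_zero.1 h5).resolve_left hα1.ne'
        have h8 : g' v = 0 := (mul_eq_zero.1 h6).resolve_left hβ1.ne'
        refine ⟨?_, (hg'0 v (hcw hv)).1 h8⟩
        by_contra h9
        exact absurd h7 (hgap v (hc.subset hv) h9).ne'
      have h2 := eq_of_rk_le hc ha.subset (fun v hv => (h1 v hv).1) (by omega)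
      have h3 := eq_of_rk_le hc hm1.subset (fun v hv => (h1 v hv).2) (by omega)
      rw [h2] at h3
      exact hu'a' (h3 ▸ hu'a)
    · left
      refine (eq_of_rk_le ha hc.subset (fun v hv => hcmem v (haw hv) ?_) (by omega)).symm
      rw [hcomb v (haw hv), hga0 v hv, ← hβ1]
      ring
  · right
    refine (eq_of_rk_le hm1 hc.subset (fun v hv => hcmem v hv.1 ?_) (by omega)).symm
    rw [hcomb v hv.1, (hg'0 v hv.1).2 hv, ← hα1]
    ring

lemma inter_atom {z a a' : Set V} (hz : IsF T z) (ha : IsF T a) (ha' : IsF T a') (hza : z ⊆ a)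
    (hza' : z ⊆ a') (hr : rk a = rk z + 1) (hr' : rk a' = rk z + 1) (hne : a ≠ a') {v : V}
    (hv : v ∈ a) (hv' : v ∈ a') : v ∈ z := by
  by_contra hvz
  have h1 := rk_lt hz (ha.inter ha').subset (subset_inter hza hza') ⟨v, ⟨hv, hv'⟩, hvz⟩
  have h2 := eq_of_rk_le (ha.inter ha') ha.subset inter_subset_left (by omega)
  have h3 := eq_of_rk_le (ha.inter ha') ha'.subset inter_subset_right (by omega)
  exact hne (h2.symm.trans h3)

lemma exists_uc (hT : T.Finite) {z w : Set V} (hz : IsF T z) (hw : IsF T w)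
    (𝒜 : Set (Set V)) (hne : ∃ a ∈ 𝒜, IsF T a ∧ z ⊆ a ∧ a ⊆ w ∧ rk a = rk z + 1)
    (hcl : ∀ a ∈ 𝒜, IsF T a → z ⊆ a → a ⊆ w → rk a = rk z + 1 → ∀ a', IsF T a' → z ⊆ a' →
      rk a' = rk z + 1 → ∀ c, IsF T c → a ⊆ c → a' ⊆ c → c ⊆ w → rk c = rk z + 2 → a' ∈ 𝒜)
    {b : Set V} (hb : IsF T b) (hzb : z ⊆ b) (hbw : b ⊆ w) (hrb : rk b = rk z + 1) : b ∈ 𝒜 := by
  classical
  obtain ⟨f, hf0, hfp, hfn⟩ := hz.exists_f
  obtain ⟨gb, hgb0, hgbp, hgbn⟩ := hb.exists_f
  let φ : Set V → ℝ := fun a => if h : ∃ v ∈ a, v ∉ z then gb h.choose / f h.choose else 0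
  have hφ : ∀ a, IsF T a → z ⊆ a → rk a = rk z + 1 → ∀ v ∈ a, v ∉ z → φ a = gb v / f v := by
    intro a ha hza hra v hv hvz
    have h : ∃ v ∈ a, v ∉ z := ⟨v, hv, hvz⟩
    have h1 : φ a = gb h.choose / f h.choose := dif_pos h
    obtain ⟨k, hk⟩ := prop_atom hz ha.subset hza hra hv hvz h.choose_spec.1
    have h2 := hfp _ (ha.subset h.choose_spec.1) h.choose_spec.2
    have h3 := hfp v (ha.subset hv) hvz
    have hkf := hk f hf0
    have hkg := hk gb (fun u hu => hgb0 u (hzb hu))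
    have hk0 : k ≠ 0 := by
      rintro rfl
      rw [hkf, zero_mul] at h2
      exact lt_irrefl _ h2
    rw [h1, hkf, hkg, mul_div_mul_left _ _ hk0]
  have hfin : {a | a ∈ 𝒜 ∧ IsF T a ∧ z ⊆ a ∧ a ⊆ w ∧ rk a = rk z + 1}.Finite :=
    hT.finite_subsets.subset fun a ha => ha.2.1.subset
  obtain ⟨a, ⟨ha𝒜, ha, hza, haw, hra⟩, hmin⟩ := hfin.exists_minimalFor φ _ (by
    obtain ⟨a, h1, h2⟩ := hne
    exact ⟨a, h1, h2⟩)
  obtain ⟨v0, hv0, hv0z⟩ := exists_mem_of_rk (A := z) (B := a) (by omega)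
  have hφa := hφ a ha hza hra v0 hv0 hv0z
  have hφn : 0 ≤ φ a := by
    rw [hφa]
    exact div_nonneg (hgbn v0 (ha.subset hv0)) (hfn v0 (ha.subset hv0))
  have hga : ∀ v ∈ a, gb v = φ a * f v := by
    intro v hv
    by_cases hvz : v ∈ z
    · rw [hgb0 v (hzb hvz), hf0 v hvz, mul_zero]
    · rw [hφ a ha hza hra v hv hvz, div_mul_cancel₀ _ (hfp v (ha.subset hv) hvz).ne']
  rcases hφn.lt_or_eq with hpos | h0
  · exfalso
    obtain ⟨g1, hg10, hg1p, hg1n⟩ := ha.exists_f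
    obtain ⟨u, hub, huz⟩ := exists_mem_of_rk (A := z) (B := b) (by omega)
    let g : V →ₗ[ℝ] ℝ := gb - φ a • f
    have hg : ∀ v, g v = gb v - φ a * f v := fun v => rfl
    have hg0 : ∀ v ∈ a, g v = 0 := fun v hv => by rw [hg, hga v hv, sub_self]
    have hgu : g u < 0 := by
      rw [hg, hgb0 u hub]
      have := mul_pos hpos (hfp u (hb.subset hub) huz)
      linarith
    have hua : u ∉ a := fun h => by
      rw [hg0 u h] at hgu
      exact lt_irrefl _ hgu
    obtain ⟨m, hm1, ⟨v3, hv3w, hv3a, hv3m⟩, hmle⟩ := tilt hT hw ⟨u, hbw hub, hua⟩ hg10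
      (fun v hv hva => hg1p v (hw.subset hv) hva) hg0
    have hm : m < 0 := by
      have h1 := hmle u (hbw hub)
      have h2 := hg1p u (hb.subset hub) hua
      by_contra hc
      push Not at hc
      have := mul_nonneg hc h2.le
      linarith
    obtain ⟨c, hc, hac, hcC, hrc⟩ := exists_atom hT ha hm1
      (fun v hv => ⟨haw hv, by rw [hg0 v hv, hg10 v hv, mul_zero]⟩)
      ⟨v3, ⟨hv3w, hv3m⟩, hv3a⟩
    have hcw : c ⊆ w := fun v hv => (hcC hv).1
    obtain ⟨p, q, hp, hq, hpq, hall⟩ := exists_dia hT hz hc (hza.trans hac) (by omega)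
    obtain ⟨a', ha', hza', ha'c, hra', hne'⟩ : ∃ a', IsF T a' ∧ z ⊆ a' ∧ a' ⊆ c ∧
        rk a' = rk z + 1 ∧ a' ≠ a := by
      rcases hall a ha hza hac hra with rfl | rfl
      · exact ⟨q, hq.1, hq.2.1, hq.2.2.1, hq.2.2.2, hpq.symm⟩
      · exact ⟨p, hp.1, hp.2.1, hp.2.2.1, hp.2.2.2, hpq⟩
    have ha'𝒜 : a' ∈ 𝒜 := hcl a ha𝒜 ha hza haw hra a' ha' hza' hra' c hc hac ha'c hcw (by omega)
    obtain ⟨v, hv, hvz⟩ := exists_mem_of_rk (A := z) (B := a') (by omega)
    have hva : v ∉ a := fun h => hvz (inter_atom hz ha ha' hza hza' hra hra' hne'.symm h hv)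
    have hgv : g v < 0 := by
      rw [(hcC (ha'c hv)).2]
      exact mul_neg_of_neg_of_pos hm (hg1p v (ha'.subset hv) hva)
    have hfv := hfp v (ha'.subset hv) hvz
    have hlt : φ a' < φ a := by
      rw [hφ a' ha' hza' hra' v hv hvz, div_lt_iff₀ hfv]
      rw [hg] at hgv
      linarith
    exact absurd (hmin ⟨ha'𝒜, ha', hza', ha'c.trans hcw, hra'⟩ hlt.le) (not_le.2 hlt)
  · have hab : a = b := by
      refine eq_of_rk_le ha hb.subset (fun v hv => ?_) (by omega)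
      by_contra h1
      have h2 := hgbp v (ha.subset hv) h1
      rw [hga v hv, ← h0, zero_mul] at h2
      exact lt_irrefl _ h2
    rw [← hab]
    exact ha𝒜

/-- the faces form a graded poset with the required properties -/
theorem pl_faces (hT : T.Finite) : PL {A : Set V // IsF T A} (fun A => rk A.1) where
  mono := by
    intro x y hxy
    obtain ⟨v, hv, hvx⟩ := Set.exists_of_ssubset (show x.1 ⊂ y.1 from hxy)
    exact rk_lt x.2 y.2.subset hxy.le ⟨v, hv, hvx⟩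
  mid := by
    intro x y hxy k h1 h2
    obtain ⟨a, ha, hxa, hay, hra⟩ := exists_mid hT y.2 (k - rk x.1) x.1 x.2 hxy (by
      have : rk x.1 ≤ k := h1
      have : k ≤ rk y.1 := h2
      omega)
    refine ⟨⟨a, ha⟩, hxa, hay, ?_⟩
    show rk a = k
    have : rk x.1 ≤ k := h1
    omega
  meet := by
    intro x y
    exact ⟨⟨x.1 ∩ y.1, x.2.inter y.2⟩, inter_subset_left, inter_subset_right,
      fun z hx hy => subset_inter hx hy⟩
  dia := by
    intro x y hxy hr
    obtain ⟨a, b, ha, hb, hab, hall⟩ := exists_dia hT x.2 y.2 hxy.le hr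
    have hlt : ∀ (c d : {A : Set V // IsF T A}), c.1 ⊆ d.1 → rk c.1 < rk d.1 → c < d := by
      intro c d h1 h2
      refine lt_of_le_of_ne h1 fun heq => ?_
      rw [heq] at h2
      exact lt_irrefl _ h2
    refine ⟨⟨a, ha.1⟩, ⟨b, hb.1⟩, fun heq => hab (congrArg Subtype.val heq), fun z => ⟨?_, ?_⟩⟩
    · rintro ⟨h1, h2⟩
      have h3 : rk x.1 < rk z.1 := by
        obtain ⟨v, hv, hvx⟩ := Set.exists_of_ssubset (show x.1 ⊂ z.1 from h1)
        exact rk_lt x.2 z.2.subset h1.le ⟨v, hv, hvx⟩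
      have h4 : rk z.1 < rk y.1 := by
        obtain ⟨v, hv, hvx⟩ := Set.exists_of_ssubset (show z.1 ⊂ y.1 from h2)
        exact rk_lt z.2 y.2.subset h2.le ⟨v, hv, hvx⟩
      have hr' : rk y.1 = rk x.1 + 2 := hr
      rcases hall z.1 z.2 h1.le h2.le (by omega) with h5 | h5
      · exact Or.inl (Subtype.ext h5)
      · exact Or.inr (Subtype.ext h5)
    · have hr' : rk y.1 = rk x.1 + 2 := hr
      rintro (rfl | rfl)
      · exact ⟨hlt _ _ ha.2.1 (by show rk x.1 < rk a; omega), hlt _ _ ha.2.2.1 (by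
          show rk a < rk y.1; omega)⟩
      · exact ⟨hlt _ _ hb.2.1 (by show rk x.1 < rk b; omega), hlt _ _ hb.2.2.1 (by
          show rk b < rk y.1; omega)⟩
  uc := by
    intro z w hr A hne hcl b hzb hbw hrb
    have hlt : ∀ (c d : {A : Set V // IsF T A}), c.1 ⊆ d.1 → rk c.1 < rk d.1 → c < d := by
      intro c d h1 h2
      refine lt_of_le_of_ne h1 fun heq => ?_
      rw [heq] at h2
      exact lt_irrefl _ h2
    have h1 := exists_uc hT z.2 w.2 {a | ∃ h : IsF T a, (⟨a, h⟩ : {A : Set V // IsF T A}) ∈ A} ?_ ?_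
      b.2 hzb.le hbw hrb
    · obtain ⟨h2, h3⟩ := h1
      exact h3
    · obtain ⟨a, ha, h2, h3, h4⟩ := hne
      exact ⟨a.1, ⟨a.2, ha⟩, a.2, h2.le, h3, h4⟩
    · rintro a ⟨ha', haA⟩ ha hza haw hra a' ha'' hza' hra' c hc hac ha'c hcw hrc
      refine ⟨ha'', hcl ⟨a, ha'⟩ haA (hlt _ _ hza (by show rk z.1 < rk a; omega)) haw hra ⟨a', ha''⟩
        (hlt _ _ hza' (by show rk z.1 < rk a'; omega)) hra' ⟨c, hc⟩ hac ha'c hcw hrc⟩

end Pool.Agent.R475.Eul
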