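import Pool.Agent.R475.Eul.Defs
import Pool.Agent.R475.Eul.Geo2

/-!
# The face lattice of a polytope
-/

set_option autoImplicit false

namespace Pool.Agent.R475.Eul

open Set Module

variable {n : ℕ}

/-- the homogenized vertex set -/
def hom (S : Finset (Fin n → ℝ)) : Set ((Fin n → ℝ) × ℝ) := (fun s => (s, (1 : ℝ))) '' (S : Set _)

/-- the homogenized face -/
def toA (S : Finset (Fin n → ℝ)) (F : Set (Fin n → ℝ)) : Set ((Fin n → ℝ) × ℝ) :=
  {v | v ∈ hom S ∧ v.1 ∈ F}

variable {S : Finset (Fin n → ℝ)}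

lemma toA_isF {F : Set (Fin n → ℝ)} (hF : IsFace (convexHull ℝ (S : Set (Fin n → ℝ))) F) :
    IsF (hom S) (toA S F) := by
  obtain ⟨l, c, hl, rfl⟩ := hF
  refine ⟨c • LinearMap.snd ℝ _ _ - l.comp (LinearMap.fst ℝ _ _), ?_, ?_⟩
  · rintro _ ⟨s, hs, rfl⟩
    have h1 := hl s (subset_convexHull ℝ _ hs)
    simp only [LinearMap.sub_apply, LinearMap.smul_apply, LinearMap.snd_apply, smul_eq_mul,
      mul_one, LinearMap.comp_apply, LinearMap.fst_apply]
    linarith
  · ext v
    constructor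
    · rintro ⟨⟨s, hs, rfl⟩, _, h2⟩
      refine ⟨⟨s, hs, rfl⟩, ?_⟩
      simp only [LinearMap.sub_apply, LinearMap.smul_apply, LinearMap.snd_apply, smul_eq_mul,
        mul_one, LinearMap.comp_apply, LinearMap.fst_apply]
      have h2 : l s = c := h2
      linarith
    · rintro ⟨⟨s, hs, rfl⟩, h2⟩
      simp only [LinearMap.sub_apply, LinearMap.smul_apply, LinearMap.snd_apply, smul_eq_mul,
        mul_one, LinearMap.comp_apply, LinearMap.fst_apply] at h2
      exact ⟨⟨s, hs, rfl⟩, subset_convexHull ℝ _ hs, by show l s = c; linarith⟩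

lemma face_subset {F : Set (Fin n → ℝ)} (hF : IsFace (convexHull ℝ (S : Set (Fin n → ℝ))) F) :
    F ⊆ convexHull ℝ {s | s ∈ S ∧ s ∈ F} := by
  classical
  obtain ⟨l, c, hl, hFeq⟩ := hF
  intro x hx
  have hx' := hx
  rw [hFeq] at hx'
  obtain ⟨hxP, hxc⟩ := hx'
  rw [Finset.mem_convexHull'] at hxP
  obtain ⟨w, hw0, hw1, hwx⟩ := hxP
  have h1 : ∀ y ∈ S, 0 ≤ w y * (c - l y) := fun y hy =>
    mul_nonneg (hw0 y hy) (sub_nonneg.2 (hl y (subset_convexHull ℝ _ hy)))
  have h2 : ∑ y ∈ S, w y * (c - l y) = 0 := by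
    have h3 : l x = ∑ y ∈ S, w y * l y := by
      rw [← hwx, map_sum]
      exact Finset.sum_congr rfl fun y _ => by rw [map_smul, smul_eq_mul]
    calc ∑ y ∈ S, w y * (c - l y) = (∑ y ∈ S, w y) * c - ∑ y ∈ S, w y * l y := by
          rw [Finset.sum_mul, ← Finset.sum_sub_distrib]
          exact Finset.sum_congr rfl fun y _ => by ring
      _ = 0 := by rw [hw1, ← h3, hxc]; ring
  have h3 : ∀ y ∈ S, y ∉ F → w y = 0 := by
    intro y hy hyF
    have h4 := (Finset.sum_eq_zero_iff_of_nonneg h1).1 h2 y hy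
    rcases mul_eq_zero.1 h4 with h5 | h5
    · exact h5
    · exfalso
      apply hyF
      rw [hFeq]
      exact ⟨subset_convexHull ℝ _ hy, by linarith⟩
  have h4 : {s | s ∈ S ∧ s ∈ F} = ((S.filter (· ∈ F) : Finset (Fin n → ℝ)) : Set (Fin n → ℝ)) := by
    ext s
    simp
  rw [h4, Finset.mem_convexHull']
  refine ⟨w, fun y hy => hw0 y (Finset.mem_filter.1 hy).1, ?_, ?_⟩
  · rw [Finset.sum_filter, ← hw1]
    refine Finset.sum_congr rfl fun y hy => ?_
    split_ifs with h5
    · rfl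
    · exact (h3 y hy h5).symm
  · rw [Finset.sum_filter, ← hwx]
    refine Finset.sum_congr rfl fun y hy => ?_
    split_ifs with h5
    · rfl
    · rw [h3 y hy h5, zero_smul]

lemma face_convex {F : Set (Fin n → ℝ)} (hF : IsFace (convexHull ℝ (S : Set (Fin n → ℝ))) F) :
    Convex ℝ F := by
  obtain ⟨l, c, hl, rfl⟩ := hF
  exact (convex_convexHull ℝ _).inter (convex_hyperplane l.isLinear c)

lemma face_eq {F : Set (Fin n → ℝ)} (hF : IsFace (convexHull ℝ (S : Set (Fin n → ℝ))) F) :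
    F = convexHull ℝ {s | s ∈ S ∧ s ∈ F} :=
  Subset.antisymm (face_subset hF) (convexHull_min (fun _ hs => hs.2) (face_convex hF))

lemma toA_subset_iff {F F' : Set (Fin n → ℝ)}
    (hF : IsFace (convexHull ℝ (S : Set (Fin n → ℝ))) F)
    (hF' : IsFace (convexHull ℝ (S : Set (Fin n → ℝ))) F') : toA S F ⊆ toA S F' ↔ F ⊆ F' := by
  constructor
  · intro h
    rw [face_eq hF]
    refine convexHull_min (fun s hs => ?_) (face_convex hF')
    exact (h (show (s, (1 : ℝ)) ∈ toA S F from ⟨⟨s, hs.1, rfl⟩, hs.2⟩)).2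
  · intro h v hv
    exact ⟨hv.1, h hv.2⟩

lemma exists_face {A : Set ((Fin n → ℝ) × ℝ)} (hA : IsF (hom S) A) :
    ∃ F, IsFace (convexHull ℝ (S : Set (Fin n → ℝ))) F ∧ toA S F = A := by
  obtain ⟨f, hf, rfl⟩ := hA
  have hsplit : ∀ s : Fin n → ℝ, f (s, 1) = f (s, 0) + f (0, 1) := by
    intro s
    rw [← map_add]
    simp
  refine ⟨{x | x ∈ convexHull ℝ (S : Set (Fin n → ℝ)) ∧
    (-(f.comp (LinearMap.inl ℝ _ _))) x = f (0, 1)}, ⟨_, _, ?_, rfl⟩, ?_⟩
  · have h1 : convexHull ℝ (S : Set (Fin n → ℝ)) ⊆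
        {x | (-(f.comp (LinearMap.inl ℝ (Fin n → ℝ) ℝ))) x ≤ f (0, 1)} := by
      refine convexHull_min (fun s hs => ?_) (convex_halfSpace_le (LinearMap.isLinear _) _)
      have h2 := hf (s, 1) ⟨s, hs, rfl⟩
      rw [hsplit] at h2
      show -f (s, 0) ≤ f (0, 1)
      linarith
    exact fun x hx => h1 hx
  · ext v
    constructor
    · rintro ⟨⟨s, hs, rfl⟩, _, h2⟩
      refine ⟨⟨s, hs, rfl⟩, ?_⟩
      have h2 : -f (s, 0) = f (0, 1) := h2
      show f (s, 1) = 0
      rw [hsplit]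
      linarith
    · rintro ⟨⟨s, hs, rfl⟩, h2⟩
      have h2 : f (s, 1) = 0 := h2
      rw [hsplit] at h2
      refine ⟨⟨s, hs, rfl⟩, subset_convexHull ℝ _ hs, ?_⟩
      show -f (s, 0) = f (0, 1)
      linarith

/-- the rank of a face is the rank of its homogenized vertex set -/
lemma frank_eq {F : Set (Fin n → ℝ)} (hF : IsFace (convexHull ℝ (S : Set (Fin n → ℝ))) F) :
    frank F = rk (toA S F) := by
  unfold frank
  split_ifs with h0
  · have h1 : toA S F = ∅ := by
      rw [h0]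
      ext v
      simp [toA]
    rw [h1]
    unfold rk
    rw [Submodule.span_empty, finrank_bot]
  · obtain ⟨s0, hs0⟩ : ({s | s ∈ S ∧ s ∈ F} : Set (Fin n → ℝ)).Nonempty := by
      rw [nonempty_iff_ne_empty]
      intro h1
      have h2 := face_subset hF
      rw [h1, convexHull_empty, subset_empty_iff] at h2
      exact h0 h2
    have hvs : vectorSpan ℝ F = vectorSpan ℝ {s | s ∈ S ∧ s ∈ F} := by
      conv_lhs => rw [face_eq hF]
      rw [← direction_affineSpan, affineSpan_convexHull, direction_affineSpan]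
    rw [hvs]
    set W := vectorSpan ℝ {s | s ∈ S ∧ s ∈ F} with hW
    have hWs : W = Submodule.span ℝ ((· -ᵥ s0) '' {s | s ∈ S ∧ s ∈ F}) :=
      vectorSpan_eq_span_vsub_set_right ℝ hs0
    let g : W × ℝ →ₗ[ℝ] (Fin n → ℝ) × ℝ :=
      { toFun := fun u => (u.1.1 + u.2 • s0, u.2)
        map_add' := fun u v => by
          ext i
          · simp only [Prod.fst_add, Prod.snd_add, Submodule.coe_add, add_smul, Pi.add_apply]
            ring
          · rfl
        map_smul' := fun c u => by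
          ext i
          · simp only [Prod.smul_fst, Prod.smul_snd, SetLike.val_smul, Pi.add_apply,
              Pi.smul_apply, smul_eq_mul, RingHom.id_apply]
            ring
          · rfl }
    have hginj : Function.Injective g := by
      intro u v huv
      have huv' : ((u.1.1 + u.2 • s0, u.2) : (Fin n → ℝ) × ℝ) = (v.1.1 + v.2 • s0, v.2) := huv
      have h1 : u.2 = v.2 := (Prod.ext_iff.1 huv').2
      have h2 : u.1.1 + u.2 • s0 = v.1.1 + v.2 • s0 := (Prod.ext_iff.1 huv').1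
      rw [h1] at h2
      exact Prod.ext (Subtype.ext (add_right_cancel h2)) h1
    have hrange : LinearMap.range g = Submodule.span ℝ (toA S F) := by
      apply le_antisymm
      · rintro _ ⟨⟨u, c⟩, rfl⟩
        have h1 : W ≤ (Submodule.span ℝ (toA S F)).comap (LinearMap.inl ℝ (Fin n → ℝ) ℝ) := by
          rw [hWs, Submodule.span_le]
          rintro _ ⟨s, hs, rfl⟩
          show ((s -ᵥ s0 : Fin n → ℝ), (0 : ℝ)) ∈ Submodule.span ℝ (toA S F)
          have h2 : ((s -ᵥ s0 : Fin n → ℝ), (0 : ℝ)) = (s, 1) - (s0, 1) := by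
            rw [Prod.mk_sub_mk, sub_self, vsub_eq_sub]
          rw [h2]
          exact Submodule.sub_mem _ (Submodule.subset_span ⟨⟨s, hs.1, rfl⟩, hs.2⟩)
            (Submodule.subset_span ⟨⟨s0, hs0.1, rfl⟩, hs0.2⟩)
        have h2 : g (u, c) = (u.1, (0 : ℝ)) + c • (s0, (1 : ℝ)) := by
          show (u.1 + c • s0, c) = _
          rw [Prod.smul_mk, Prod.mk_add_mk, zero_add, smul_eq_mul, mul_one]
        rw [h2]
        refine Submodule.add_mem _ (h1 u.2) (Submodule.smul_mem _ _ ?_)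
        exact Submodule.subset_span ⟨⟨s0, hs0.1, rfl⟩, hs0.2⟩
      · rw [Submodule.span_le]
        rintro _ ⟨⟨s, hs, rfl⟩, hsF⟩
        have h1 : s - s0 ∈ W := by
          rw [hWs]
          exact Submodule.subset_span ⟨s, ⟨hs, hsF⟩, rfl⟩
        refine ⟨(⟨s - s0, h1⟩, 1), ?_⟩
        show ((s - s0) + (1 : ℝ) • s0, (1 : ℝ)) = (s, 1)
        rw [one_smul, sub_add_cancel]
    unfold rk
    rw [← hrange, LinearMap.finrank_range_of_inj hginj, finrank_prod, finrank_self]

/-- the face lattice is the poset of the homogenized faces -/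
noncomputable def faceIso (S : Finset (Fin n → ℝ)) :
    FaceLattice (convexHull ℝ (S : Set (Fin n → ℝ))) ≃o {A // IsF (hom S) A} where
  toEquiv := Equiv.ofBijective (fun F => ⟨toA S F.1, toA_isF F.2⟩) (by
    constructor
    · intro F F' h
      have h1 : toA S F.1 = toA S F'.1 := congrArg Subtype.val h
      exact Subtype.ext (Subset.antisymm ((toA_subset_iff F.2 F'.2).1 h1.subset)
        ((toA_subset_iff F'.2 F.2).1 h1.symm.subset))
    · rintro ⟨A, hA⟩
      obtain ⟨F, hF, rfl⟩ := exists_face hA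
      exact ⟨⟨F, hF⟩, rfl⟩)
  map_rel_iff' := by
    intro F F'
    exact toA_subset_iff F.2 F'.2

lemma faceIso_rank (S : Finset (Fin n → ℝ))
    (F : FaceLattice (convexHull ℝ (S : Set (Fin n → ℝ)))) : rk (faceIso S F).1 = frank F.1 :=
  (frank_eq F.2).symm

/-- transfer along an isomorphism -/
lemma PL.transfer {L L' : Type*} [PartialOrder L] [PartialOrder L'] {ρ : L → ℕ} (h : PL L ρ)
    (e : L' ≃o L) {ρ' : L' → ℕ} (hρ : ∀ x, ρ (e x) = ρ' x) : PL L' ρ' where
  mono := by
    intro x y hxy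
    rw [← hρ, ← hρ]
    exact h.mono (e.lt_iff_lt.2 hxy)
  mid := by
    intro x y hxy k h1 h2
    rw [← hρ] at h1 h2
    obtain ⟨z, h3, h4, h5⟩ := h.mid (e.le_iff_le.2 hxy) k h1 h2
    refine ⟨e.symm z, ?_, ?_, ?_⟩
    · rw [← e.le_iff_le, e.apply_symm_apply]; exact h3
    · rw [← e.le_iff_le, e.apply_symm_apply]; exact h4
    · rw [← hρ, e.apply_symm_apply]; exact h5
  meet := by
    intro x y
    obtain ⟨m, h1, h2, h3⟩ := h.meet (e x) (e y)
    refine ⟨e.symm m, ?_, ?_, fun z hx hy => ?_⟩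
    · rw [← e.le_iff_le, e.apply_symm_apply]; exact h1
    · rw [← e.le_iff_le, e.apply_symm_apply]; exact h2
    · rw [← e.le_iff_le, e.apply_symm_apply]
      exact h3 _ (e.le_iff_le.2 hx) (e.le_iff_le.2 hy)
  dia := by
    intro x y hxy hr
    rw [← hρ, ← hρ] at hr
    obtain ⟨a, b, hab, hall⟩ := h.dia (e.lt_iff_lt.2 hxy) hr
    refine ⟨e.symm a, e.symm b, fun heq => hab (e.symm.injective heq), fun z => ?_⟩
    rw [← e.lt_iff_lt, ← e.lt_iff_lt (x := z), hall (e z), OrderIso.eq_symm_apply,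
      OrderIso.eq_symm_apply]
  uc := by
    intro z w hr A hne hcl b h1 h2 h3
    rw [← hρ, ← hρ] at hr
    have key := h.uc (z := e z) (w := e w) hr {a | e.symm a ∈ A} ?_ ?_ (e b) (e.lt_iff_lt.2 h1)
      (e.le_iff_le.2 h2) (by rw [hρ, hρ]; exact h3)
    · have key : e.symm (e b) ∈ A := key
      rwa [e.symm_apply_apply] at key
    · obtain ⟨a, ha, h4, h5, h6⟩ := hne
      refine ⟨e a, ?_, e.lt_iff_lt.2 h4, e.le_iff_le.2 h5, by rw [hρ, hρ]; exact h6⟩
      show e.symm (e a) ∈ A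
      rw [e.symm_apply_apply]; exact ha
    · intro a ha h4 h5 h6 a' h7 h8 c h9 h10 h11 h12
      have hs : ∀ u : L, ρ' (e.symm u) = ρ u := fun u => by rw [← hρ, e.apply_symm_apply]
      refine hcl (e.symm a) ha ?_ ?_ ?_ (e.symm a') ?_ ?_ (e.symm c) ?_ ?_ ?_ ?_
      · rw [← e.lt_iff_lt, e.apply_symm_apply]; exact h4
      · rw [← e.le_iff_le, e.apply_symm_apply]; exact h5
      · rw [hs, ← hρ]; exact h6
      · rw [← e.lt_iff_lt, e.apply_symm_apply]; exact h7
      · rw [hs, ← hρ]; exact h8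
      · exact e.symm.le_iff_le.2 h9
      · exact e.symm.le_iff_le.2 h10
      · rw [← e.le_iff_le, e.apply_symm_apply]; exact h11
      · rw [hs, ← hρ]; exact h12

lemma hom_finite (S : Finset (Fin n → ℝ)) : (hom S).Finite := S.finite_toSet.image _

/-- the face lattice of a polytope -/
theorem pl_polytope (S : Finset (Fin n → ℝ)) :
    PL (FaceLattice (convexHull ℝ (S : Set (Fin n → ℝ)))) (fun F => frank F.1) :=
  (pl_faces (hom_finite S)).transfer (faceIso S) (faceIso_rank S)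

lemma finite_faces (S : Finset (Fin n → ℝ)) :
    Finite (FaceLattice (convexHull ℝ (S : Set (Fin n → ℝ)))) := by
  have h1 : Finite {A // IsF (hom S) A} := by
    have h2 : {A | IsF (hom S) A}.Finite :=
      (hom_finite S).finite_subsets.subset fun A hA => hA.subset
    exact h2.to_subtype
  exact Finite.of_equiv _ (faceIso S).symm.toEquiv

end Pool.Agent.R475.Eul
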