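import Pool.Agent.R475.Eul.Comb

/-!
# Replacing one rank of a face lattice: the counting part
-/

set_option autoImplicit false

namespace Pool.Agent.R475.Eul

open Finset

universe u v

lemma card_two {α : Type*} [Fintype α] [DecidableEq α] (P : α → Prop) [DecidablePred P]
    (hP : ∃ a b, a ≠ b ∧ ∀ z, P z ↔ (z = a ∨ z = b)) : (univ.filter P).card = 2 := by
  obtain ⟨a, b, hab, h⟩ := hP
  have h1 : univ.filter P = {a, b} := by
    ext z
    simp [h z]
  rw [h1, card_pair hab]

section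

variable {L : Type u} [PartialOrder L] [Fintype L] {ρ : L → ℕ} (h : PL L ρ) {R : ℕ}
  {E : Type v} [Fintype E] (t : E → L) (htR : ∀ e, ρ (t e) = R)
  (T2 : ∀ {x y : L}, x < y → ρ x + 1 = R → ρ y = R + 1 → ∃ a b : E, a ≠ b ∧
    ∀ e, (x < t e ∧ t e < y) ↔ (e = a ∨ e = b))

open Classical in
/-- multiplicities -/
noncomputable def mul (t : E → L) (τ : L) : ℕ := (univ.filter fun e => t e = τ).card

include T2

lemma mul_add {x y τ τ' : L} (hxy : x < y) (hx : ρ x + 1 = R) (hy : ρ y = R + 1) (hne : τ ≠ τ')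
    (hm : ∀ z, (x < z ∧ z < y) ↔ (z = τ ∨ z = τ')) : mul t τ + mul t τ' = 2 := by
  classical
  unfold mul
  rw [← card_union_of_disjoint]
  · rw [← card_two (fun e => x < t e ∧ t e < y) (T2 hxy hx hy)]
    congr 1
    ext e
    simp only [mem_union, mem_filter, mem_univ, true_and]
    exact (hm (t e)).symm
  · rw [disjoint_left]
    intro e h1 h2
    simp only [mem_filter, mem_univ, true_and] at h1 h2
    exact hne (h1.symm.trans h2)

include h

lemma other {x y τ : L} (hx : ρ x + 1 = R) (hτ : ρ τ = R) (hy : ρ y = R + 1) (h1 : x < τ)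
    (h2 : τ < y) : ∃ τ', τ ≠ τ' ∧ mul t τ + mul t τ' = 2 ∧
      ∀ z, (x < z ∧ z < y) ↔ (z = τ ∨ z = τ') := by
  obtain ⟨a, b, hab, hm⟩ := h.dia (h1.trans h2) (by omega)
  rcases (hm τ).1 ⟨h1, h2⟩ with rfl | rfl
  · exact ⟨b, hab, mul_add t T2 (h1.trans h2) hx hy hab hm, hm⟩
  · refine ⟨a, hab.symm, mul_add t T2 (h1.trans h2) hx hy hab.symm fun z => ?_, fun z => ?_⟩
    · rw [hm]; exact or_comm
    · rw [hm]; exact or_comm

lemma spread {z w τ0 : L} (hz : ρ z + 2 = R) (hw : ρ w = R + 2) (hτ0 : ρ τ0 = R)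
    (h1 : z < τ0) (h2 : τ0 < w) (hm : mul t τ0 ≠ 1) :
    ∀ τ, z < τ → τ < w → ρ τ = R → mul t τ ≠ 1 := by
  have step : ∀ x τ1, z < x → ρ x + 1 = R → x < τ1 → τ1 < w → ρ τ1 = R → mul t τ1 ≠ 1 →
      ∀ τ, x < τ → τ < w → ρ τ = R → mul t τ ≠ 1 := by
    intro x τ1 hzx hx hx1 h1w hτ1 hm1 τ hxτ hτw hτ
    refine h.uc (z := x) (w := w) (by omega) {τ | mul t τ ≠ 1} ⟨τ1, hm1, hx1, h1w.le, by omega⟩
      ?_ τ hxτ hτw.le (by omega)
    intro a ha hxa _ hra a' hxa' hra' c hac ha'c _ hrc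
    by_cases hne : a' = a
    · rw [hne]; exact ha
    · obtain ⟨b, hab, hsum, hmid⟩ := other h t T2 hx (show ρ a = R by omega)
        (show ρ c = R + 1 by omega) hxa (h.lt_of_le hac (by omega))
      rcases (hmid a').1 ⟨hxa', h.lt_of_le ha'c (by omega)⟩ with h3 | h3
      · exact absurd h3 hne
      · rw [h3]
        have ha : mul t a ≠ 1 := ha
        show mul t b ≠ 1
        omega
  have key := h.uc (z := z) (w := w) (by omega)
    {x | ∀ τ, x < τ → τ < w → ρ τ = R → mul t τ ≠ 1} ?_ ?_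
  · intro τ hzτ hτw hτ
    obtain ⟨x, hzx, hxτ, hx⟩ := h.mid hzτ.le (ρ z + 1) (by omega) (by omega)
    have hxτ' : x < τ := h.lt_of_le hxτ (by omega)
    exact key x (h.lt_of_le hzx (by omega)) (hxτ'.trans hτw).le hx τ hxτ' hτw hτ
  · obtain ⟨x, hzx, hxτ, hx⟩ := h.mid h1.le (ρ z + 1) (by omega) (by omega)
    have hxτ' : x < τ0 := h.lt_of_le hxτ (by omega)
    have hzx' : z < x := h.lt_of_le hzx (by omega)
    exact ⟨x, step x τ0 hzx' (by omega) hxτ' h2 hτ0 hm, hzx', (hxτ'.trans h2).le, hx⟩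
  · intro x hx hzx hxw hrx x' hzx' hrx' c hxc hx'c hcw hrc
    have hc : c < w := h.lt_of_le hcw (by omega)
    exact step x' c hzx' (by omega) (h.lt_of_le hx'c (by omega)) hc (by omega)
      (hx c (h.lt_of_le hxc (by omega)) hc (by omega))

include htR

open Classical in
lemma even_count {z w : L} (hz : ρ z + 2 = R) (hw : ρ w = R + 2)
    (hm : ∀ τ, z < τ → τ < w → ρ τ = R → mul t τ ≠ 1) {a b : L} (hza : z ≤ a) (hbw : b ≤ w) :
    Even (univ.filter fun e => a < t e ∧ t e < b).card := by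
  have h1 := card_eq_sum_card_fiberwise (s := univ.filter fun e => a < t e ∧ t e < b)
    (t := univ.filter fun τ => a < τ ∧ τ < b ∧ ρ τ = R) (f := t) (by
      intro e he
      simp only [coe_filter, mem_univ, true_and, Set.mem_ofPred_eq] at he ⊢
      exact ⟨he.1, he.2, htR e⟩)
  rw [h1]
  refine even_sum _ fun τ hτ => ?_
  simp only [mem_filter, mem_univ, true_and] at hτ
  have h2 : ((univ.filter fun e => a < t e ∧ t e < b).filter fun e => t e = τ) =
      univ.filter fun e => t e = τ := by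
    ext e
    simp only [mem_filter, mem_univ, true_and]
    constructor
    · exact fun h => h.2
    · rintro rfl
      exact ⟨⟨hτ.1, hτ.2.1⟩, rfl⟩
  rw [h2]
  have hzτ : z < τ := lt_of_le_of_lt hza hτ.1
  have hτw : τ < w := lt_of_lt_of_le hτ.2.1 hbw
  obtain ⟨x, hzx, hxτ, hx⟩ := h.mid hzτ.le (ρ z + 1) (by omega) (by omega)
  obtain ⟨y, hτy, hyw, hy⟩ := h.mid hτw.le (ρ τ + 1) (by omega) (by omega)
  obtain ⟨τ', _, hsum, _⟩ := other h t T2 (show ρ x + 1 = R by omega) hτ.2.2
    (show ρ y = R + 1 by omega) (h.lt_of_le hxτ (by omega)) (h.lt_of_le hτy (by omega))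
  have h3 := hm τ hzτ hτw hτ.2.2
  show Even (mul t τ)
  have h4 : mul t τ = 0 ∨ mul t τ = 2 := by omega
  rcases h4 with h4 | h4 <;> rw [h4]
  · exact Even.zero
  · exact even_two

open Classical in
lemma four_below {z w : L} (hz : ρ z + 2 = R) (hw : ρ w = R + 2)
    (hm : ∀ τ, z < τ → τ < w → ρ τ = R → mul t τ ≠ 1) {y : L} (hzy : z < y) (hyw : y < w)
    (hy : ρ y = R + 1) : 4 ≤ (univ.filter fun x => z < x ∧ x < y ∧ ρ x + 1 = R).card := by
  set Xy := univ.filter fun x => z < x ∧ x < y ∧ ρ x + 1 = R with hXy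
  have hmem : ∀ x, x ∈ Xy ↔ z < x ∧ x < y ∧ ρ x + 1 = R := fun x => by simp [hXy]
  have hdia : ∀ τ, z < τ → ρ τ = R → (univ.filter fun x => z < x ∧ x < τ).card = 2 :=
    fun τ hτ hr => card_two _ (h.dia hτ (by omega))
  have h1 : Xy.card * 2 = (univ.filter fun e => z < t e ∧ t e < y).card * 2 := by
    refine card_mul_eq_card_mul (fun x e => x < t e) (fun x hx => ?_) fun e he => ?_
    · rw [hmem] at hx
      rw [← card_two (fun e => x < t e ∧ t e < y) (T2 hx.2.1 hx.2.2 hy)]
      congr 1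
      ext e
      simp only [mem_bipartiteAbove, mem_filter, mem_univ, true_and]
      constructor
      · rintro ⟨⟨_, h2⟩, h3⟩
        exact ⟨h3, h2⟩
      · rintro ⟨h3, h2⟩
        exact ⟨⟨hx.1.trans h3, h2⟩, h3⟩
    · simp only [mem_filter, mem_univ, true_and] at he
      rw [← hdia (t e) he.1 (htR e)]
      congr 1
      ext x
      simp only [mem_bipartiteBelow, mem_filter, mem_univ, true_and, hmem]
      constructor
      · rintro ⟨⟨h2, _⟩, h3⟩
        exact ⟨h2, h3⟩
      · rintro ⟨h2, h3⟩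
        have h4 := h.mono h2
        have h5 := h.mono h3
        have h6 := htR e
        exact ⟨⟨h2, h3.trans he.2, by omega⟩, h3⟩
  have h2 : Even Xy.card := by
    have h3 := even_count h t htR T2 hz hw hm (le_refl z) hyw.le
    have h4 : Xy.card = (univ.filter fun e => z < t e ∧ t e < y).card := by omega
    rw [h4]; exact h3
  obtain ⟨x1, hzx, hxy, hx⟩ := h.mid hzy.le (ρ z + 1) (by omega) (by omega)
  have hx1 : x1 ∈ Xy := (hmem x1).2 ⟨h.lt_of_le hzx (by omega), h.lt_of_le hxy (by omega), by omega⟩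
  have h3 : 0 < Xy.card := card_pos.2 ⟨x1, hx1⟩
  have h4 : Xy.card ≠ 2 := by
    intro hc
    obtain ⟨τ1, τ2, hne, hmid⟩ := h.dia ((hmem x1).1 hx1).2.1 (by omega)
    have hsub : ∀ τ, x1 < τ → τ < y → (univ.filter fun x => z < x ∧ x < τ) = Xy := by
      intro τ h5 h6
      have h7 := h.mono h5
      have h8 := h.mono h6
      have hτ : ρ τ = R := by omega
      refine eq_of_subset_of_card_le (fun x hx => ?_) ?_
      · simp only [mem_filter, mem_univ, true_and] at hx
        have h9 := h.mono hx.1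
        have h10 := h.mono hx.2
        exact (hmem x).2 ⟨hx.1, hx.2.trans h6, by omega⟩
      · rw [hdia τ (((hmem x1).1 hx1).1.trans h5) hτ, hc]
    have m1 := (hmid τ1).2 (Or.inl rfl)
    have m2 := (hmid τ2).2 (Or.inr rfl)
    obtain ⟨p, p', hpp, hp⟩ := card_eq_two.1 hc
    have hall : ∀ q ∈ Xy, q < τ1 ∧ q < τ2 := by
      intro q hq
      have h5 := hq
      rw [← hsub τ1 m1.1 m1.2] at h5
      have h6 := hq
      rw [← hsub τ2 m2.1 m2.2] at h6
      simp only [mem_filter, mem_univ, true_and] at h5 h6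
      exact ⟨h5.2, h6.2⟩
    have hpX : p ∈ Xy := by rw [hp]; simp
    have hpX' : p' ∈ Xy := by rw [hp]; simp
    have r1 := h.mono m1.1
    have r2 := h.mono m1.2
    have r3 := h.mono m2.1
    have r4 := h.mono m2.2
    have r5 := ((hmem p).1 hpX).2.2
    have r6 := ((hmem p').1 hpX').2.2
    exact hne (h.uniq hpp (by omega) (hall p hpX).1.le (hall p' hpX').1.le (hall p hpX).2.le
      (hall p' hpX').2.le (by omega) (by omega))
  obtain ⟨k, hk⟩ := h2
  omega

open Classical in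
lemma four_above {z w : L} (hz : ρ z + 2 = R) (hw : ρ w = R + 2)
    (hm : ∀ τ, z < τ → τ < w → ρ τ = R → mul t τ ≠ 1) {x : L} (hzx : z < x) (hxw : x < w)
    (hx : ρ x + 1 = R) : 4 ≤ (univ.filter fun y => x < y ∧ y < w ∧ ρ y = R + 1).card := by
  set Yx := univ.filter fun y => x < y ∧ y < w ∧ ρ y = R + 1 with hYx
  have hmem : ∀ y, y ∈ Yx ↔ x < y ∧ y < w ∧ ρ y = R + 1 := fun y => by simp [hYx]
  have hdia : ∀ τ, τ < w → ρ τ = R → (univ.filter fun y => τ < y ∧ y < w).card = 2 :=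
    fun τ hτ hr => card_two _ (h.dia hτ (by omega))
  have h1 : Yx.card * 2 = (univ.filter fun e => x < t e ∧ t e < w).card * 2 := by
    refine card_mul_eq_card_mul (fun y e => t e < y) (fun y hy => ?_) fun e he => ?_
    · rw [hmem] at hy
      rw [← card_two (fun e => x < t e ∧ t e < y) (T2 hy.1 hx hy.2.2)]
      congr 1
      ext e
      simp only [mem_bipartiteAbove, mem_filter, mem_univ, true_and]
      constructor
      · rintro ⟨⟨h2, _⟩, h3⟩
        exact ⟨h2, h3⟩
      · rintro ⟨h2, h3⟩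
        exact ⟨⟨h2, h3.trans hy.2.1⟩, h3⟩
    · simp only [mem_filter, mem_univ, true_and] at he
      rw [← hdia (t e) he.2 (htR e)]
      congr 1
      ext y
      simp only [mem_bipartiteBelow, mem_filter, mem_univ, true_and, hmem]
      constructor
      · rintro ⟨⟨_, h2, _⟩, h3⟩
        exact ⟨h3, h2⟩
      · rintro ⟨h2, h3⟩
        have h4 := h.mono h2
        have h5 := h.mono h3
        have h6 := htR e
        exact ⟨⟨he.1.trans h2, h3, by omega⟩, h2⟩
  have h2 : Even Yx.card := by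
    have h3 := even_count h t htR T2 hz hw hm hzx.le (le_refl w)
    have h4 : Yx.card = (univ.filter fun e => x < t e ∧ t e < w).card := by omega
    rw [h4]; exact h3
  obtain ⟨y1, hxy, hyw, hy⟩ := h.mid hxw.le (ρ x + 2) (by omega) (by omega)
  have hy1 : y1 ∈ Yx := (hmem y1).2 ⟨h.lt_of_le hxy (by omega), h.lt_of_le hyw (by omega), by omega⟩
  have h3 : 0 < Yx.card := card_pos.2 ⟨y1, hy1⟩
  have h4 : Yx.card ≠ 2 := by
    intro hc
    obtain ⟨τ1, τ2, hne, hmid⟩ := h.dia ((hmem y1).1 hy1).1 (by omega)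
    have hsub : ∀ τ, x < τ → τ < y1 → (univ.filter fun y => τ < y ∧ y < w) = Yx := by
      intro τ h5 h6
      have h7 := h.mono h5
      have h8 := h.mono h6
      have hτ : ρ τ = R := by omega
      refine eq_of_subset_of_card_le (fun y hy => ?_) ?_
      · simp only [mem_filter, mem_univ, true_and] at hy
        have h9 := h.mono hy.1
        have h10 := h.mono hy.2
        exact (hmem y).2 ⟨h5.trans hy.1, hy.2, by omega⟩
      · rw [hdia τ (h6.trans ((hmem y1).1 hy1).2.1) hτ, hc]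
    have m1 := (hmid τ1).2 (Or.inl rfl)
    have m2 := (hmid τ2).2 (Or.inr rfl)
    obtain ⟨p, p', hpp, hp⟩ := card_eq_two.1 hc
    have hall : ∀ q ∈ Yx, τ1 < q ∧ τ2 < q := by
      intro q hq
      have h5 := hq
      rw [← hsub τ1 m1.1 m1.2] at h5
      have h6 := hq
      rw [← hsub τ2 m2.1 m2.2] at h6
      simp only [mem_filter, mem_univ, true_and] at h5 h6
      exact ⟨h5.1, h6.1⟩
    have hpX : p ∈ Yx := by rw [hp]; simp
    have hpX' : p' ∈ Yx := by rw [hp]; simp
    have r1 := h.mono m1.1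
    have r2 := h.mono m1.2
    have r3 := h.mono m2.1
    have r4 := h.mono m2.2
    have r5 := ((hmem p).1 hpX).2.2
    have r6 := ((hmem p').1 hpX').2.2
    obtain ⟨m, hm1, hm2, hmm⟩ := h.meet p p'
    have q1 := hmm τ1 (hall p hpX).1.le (hall p' hpX').1.le
    have q2 := hmm τ2 (hall p hpX).2.le (hall p' hpX').2.le
    have q3 : ρ m < ρ p := by
      refine h.mono (lt_of_le_of_ne hm1 fun heq => ?_)
      rw [heq] at hm2
      exact hpp (h.eq_of_le hm2 (by omega))
    have q4 := h.eq_of_le q1 (by omega)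
    have q5 := h.eq_of_le q2 (by omega)
    exact hne (q4.trans q5.symm)
  obtain ⟨k, hk⟩ := h2
  omega

open Classical in
/-- all multiplicities are equal to one -/
theorem mul_eq_one
    (T4 : ∀ {z w : L}, z < w → ρ z + 2 = R → ρ w = R + 2 →
      (univ.filter fun e => z < t e ∧ t e < w).card + 2 =
        (univ.filter fun x => z < x ∧ x < w ∧ ρ x + 1 = R).card +
          (univ.filter fun y => z < y ∧ y < w ∧ ρ y = R + 1).card)
    {z w τ0 : L} (hz : ρ z + 2 = R) (hw : ρ w = R + 2) (hτ0 : ρ τ0 = R)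
    (h1 : z < τ0) (h2 : τ0 < w) : mul t τ0 = 1 := by
  by_contra hne
  have hm := spread h t T2 hz hw hτ0 h1 h2 hne
  set Xs := univ.filter fun x => z < x ∧ x < w ∧ ρ x + 1 = R with hXs
  set Ys := univ.filter fun y => z < y ∧ y < w ∧ ρ y = R + 1 with hYs
  set Es := univ.filter fun e => z < t e ∧ t e < w with hEs
  have mX : ∀ x, x ∈ Xs ↔ z < x ∧ x < w ∧ ρ x + 1 = R := fun x => by simp [hXs]
  have mY : ∀ y, y ∈ Ys ↔ z < y ∧ y < w ∧ ρ y = R + 1 := fun y => by simp [hYs]
  have mE : ∀ e, e ∈ Es ↔ z < t e ∧ t e < w := fun e => by simp [hEs]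
  set Pr := (Xs ×ˢ Ys).filter fun p => p.1 < p.2 with hPr
  have mP : ∀ p, p ∈ Pr ↔ (p.1 ∈ Xs ∧ p.2 ∈ Ys) ∧ p.1 < p.2 := fun p => by
    rw [hPr, mem_filter, mem_product]
  have e1 : Pr.card * 2 = Es.card * 4 := by
    refine card_mul_eq_card_mul (fun p e => p.1 < t e ∧ t e < p.2) (fun p hp => ?_) fun e he => ?_
    · rw [mP, mX, mY] at hp
      rw [← card_two (fun e => p.1 < t e ∧ t e < p.2) (T2 hp.2 hp.1.1.2.2 hp.1.2.2.2)]
      congr 1
      ext e
      simp only [mem_bipartiteAbove, mem_filter, mem_univ, true_and, mE]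
      constructor
      · exact fun h3 => h3.2
      · exact fun h3 => ⟨⟨hp.1.1.1.trans h3.1, h3.2.trans hp.1.2.2.1⟩, h3⟩
    · rw [mE] at he
      have h3 : (univ.filter fun x => z < x ∧ x < t e).card = 2 :=
        card_two _ (h.dia he.1 (by rw [htR]; omega))
      have h4 : (univ.filter fun y => t e < y ∧ y < w).card = 2 :=
        card_two _ (h.dia he.2 (by rw [htR]; omega))
      have h5 : (Pr.bipartiteBelow (fun p e => p.1 < t e ∧ t e < p.2) e) =
          (univ.filter fun x => z < x ∧ x < t e) ×ˢ (univ.filter fun y => t e < y ∧ y < w) := by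
        ext p
        simp only [mem_bipartiteBelow, mem_product, mem_filter, mem_univ, true_and, mP, mX, mY]
        constructor
        · rintro ⟨h6, h7⟩
          exact ⟨⟨h6.1.1.1, h7.1⟩, h7.2, h6.1.2.2.1⟩
        · rintro ⟨⟨a1, a2⟩, a3, a4⟩
          have r1 := h.mono a1
          have r2 := h.mono a2
          have r3 := h.mono a3
          have r4 := h.mono a4
          have r5 := htR e
          exact ⟨⟨⟨⟨a1, a2.trans he.2, by omega⟩, he.1.trans a3, a4, by omega⟩, a2.trans a3⟩,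
            a2, a3⟩
      rw [h5, card_product, h3, h4]
  have e2 : Ys.card * 4 ≤ Pr.card * 1 := by
    refine card_mul_le_card_mul (fun y p => p.2 = y) (fun y hy => ?_) fun p _ => ?_
    · have hy' := (mY y).1 hy
      refine (four_below h t htR T2 hz hw hm hy'.1 hy'.2.1 hy'.2.2).trans ?_
      refine card_le_card_of_injOn (fun x => (x, y)) (fun x hx => ?_) (fun a _ b _ hab => ?_)
      · simp only [coe_filter, mem_univ, true_and, Set.mem_ofPred_eq] at hx
        rw [mem_coe, mem_bipartiteAbove, mP, mX]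
        exact ⟨⟨⟨⟨hx.1, hx.2.1.trans hy'.2.1, hx.2.2⟩, hy⟩, hx.2.1⟩, rfl⟩
      · exact (Prod.ext_iff.1 hab).1
    · refine card_le_one.2 fun a ha b hb => ?_
      rw [mem_bipartiteBelow] at ha hb
      exact ha.2.symm.trans hb.2
  have e3 : Xs.card * 4 ≤ Pr.card * 1 := by
    refine card_mul_le_card_mul (fun x p => p.1 = x) (fun x hx => ?_) fun p _ => ?_
    · have hx' := (mX x).1 hx
      refine (four_above h t htR T2 hz hw hm hx'.1 hx'.2.1 hx'.2.2).trans ?_
      refine card_le_card_of_injOn (fun y => (x, y)) (fun y hy => ?_) (fun a _ b _ hab => ?_)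
      · simp only [coe_filter, mem_univ, true_and, Set.mem_ofPred_eq] at hy
        rw [mem_coe, mem_bipartiteAbove, mP, mY]
        exact ⟨⟨⟨hx, ⟨hx'.1.trans hy.1, hy.2.1, hy.2.2⟩⟩, hy.1⟩, rfl⟩
      · exact (Prod.ext_iff.1 hab).2
    · refine card_le_one.2 fun a ha b hb => ?_
      rw [mem_bipartiteBelow] at ha hb
      exact ha.2.symm.trans hb.2
  have e4 := T4 (h1.trans h2) hz hw
  rw [← hXs, ← hYs, ← hEs] at e4
  omega

end

end Pool.Agent.R475.Eul
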