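import Mathlib

/-!
# Polytopes, face lattices and Eulerian posets
-/

set_option autoImplicit false

namespace Pool.Agent.R475.Eul

open Module

/-- `F` is a face of the set `P`: there is an inequality `l x ≤ c` which is valid on `P` such that
`F` is the set of the points of `P` with `l x = c` (so `∅` and `P` are faces). -/
def IsFace {n : ℕ} (P F : Set (Fin n → ℝ)) : Prop :=
  ∃ (l : (Fin n → ℝ) →ₗ[ℝ] ℝ) (c : ℝ), (∀ x ∈ P, l x ≤ c) ∧ F = {x | x ∈ P ∧ l x = c}

/-- the face lattice of `P`, ordered by inclusion -/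
abbrev FaceLattice {n : ℕ} (P : Set (Fin n → ℝ)) : Type := {F : Set (Fin n → ℝ) // IsFace P F}

open Classical in
/-- the rank of a face: its dimension plus one (the empty face has dimension `-1`, rank `0`) -/
noncomputable def frank {n : ℕ} (F : Set (Fin n → ℝ)) : ℕ :=
  if F = ∅ then 0 else finrank ℝ (vectorSpan ℝ F) + 1

/-- a graded poset with least and greatest element: `ρ` is its rank function -/
def IsRank {Q : Type*} [PartialOrder Q] [BoundedOrder Q] (ρ : Q → ℕ) : Prop :=
  ρ ⊥ = 0 ∧ ∀ x y : Q, x ⋖ y → ρ y = ρ x + 1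

/-- `Q` with the rank function `ρ` is Eulerian: every interval `[x, y]` with `x < y` has as many
elements of even rank as of odd rank. -/
def IsEulerian {Q : Type*} [PartialOrder Q] [BoundedOrder Q] (ρ : Q → ℕ) : Prop :=
  IsRank ρ ∧ ∀ x y : Q, x < y →
    {z | x ≤ z ∧ z ≤ y ∧ Even (ρ z)}.ncard = {z | x ≤ z ∧ z ≤ y ∧ Odd (ρ z)}.ncard

end Pool.Agent.R475.Eul
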