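import Pool.Agent.R475.Eul.Count
import Pool.Agent.R475.Eul.Defs

/-!
# Replacing one rank of a face lattice: assembling the isomorphism
-/

set_option autoImplicit false

namespace Pool.Agent.R475.Eul

open Finset

universe u v

section QFacts

variable {Q : Type v} [PartialOrder Q] [BoundedOrder Q] [Finite Q] {σ : Q → ℕ}

lemma q_mid (hσ : IsRank σ) {x y : Q} (hxy : x ≤ y) :
    σ x ≤ σ y ∧ ∀ k, σ x ≤ k → k ≤ σ y → ∃ z, x ≤ z ∧ z ≤ y ∧ σ z = k := by
  classical
  have := Fintype.ofFinite Q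
  let _ : LocallyFiniteOrder Q := Fintype.toLocallyFiniteOrder
  rw [le_iff_reflTransGen_covBy] at hxy
  induction hxy with
  | refl => exact ⟨le_rfl, fun k h1 h2 => ⟨x, le_rfl, le_rfl, le_antisymm h1 h2⟩⟩
  | tail hb hc ih =>
    rename_i b c
    have h1 := hσ.2 _ _ hc
    refine ⟨by omega, fun k h2 h3 => ?_⟩
    rcases Nat.lt_or_ge k (σ c) with h4 | h4
    · obtain ⟨z, h5, h6, h7⟩ := ih.2 k h2 (by omega)
      exact ⟨z, h5, h6.trans hc.le, h7⟩
    · refine ⟨c, ?_, le_rfl, by omega⟩
      exact (le_iff_reflTransGen_covBy.2 hb).trans hc.le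

lemma q_mono (hσ : IsRank σ) {x y : Q} (hxy : x < y) : σ x < σ y := by
  classical
  have := Fintype.ofFinite Q
  let _ : LocallyFiniteOrder Q := Fintype.toLocallyFiniteOrder
  obtain ⟨c, h1, h2⟩ := exists_covBy_le_of_lt hxy
  have h3 := hσ.2 _ _ h1
  have h4 := (q_mid hσ h2).1
  omega

lemma q_par (hσ : IsEulerian σ) {x y : Q} (hxy : x < y) :
    {z | x ≤ z ∧ z ≤ y ∧ Even (σ z + σ x)}.ncard = {z | x ≤ z ∧ z ≤ y ∧ Odd (σ z + σ x)}.ncard := by
  have h := hσ.2 x y hxy
  rcases Nat.even_or_odd (σ x) with hx | hx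
  · have h1 : ∀ z, Even (σ z + σ x) ↔ Even (σ z) := fun z => by
      rw [Nat.even_add]; exact iff_true_right hx
    have h2 : ∀ z, Odd (σ z + σ x) ↔ Odd (σ z) := fun z => by
      rw [← Nat.not_even_iff_odd, h1, Nat.not_even_iff_odd]
    simp only [h1, h2]
    exact h
  · have hx' : ¬ Even (σ x) := Nat.not_even_iff_odd.2 hx
    have h1 : ∀ z, Even (σ z + σ x) ↔ Odd (σ z) := fun z => by
      rw [Nat.even_add, ← Nat.not_even_iff_odd]
      constructor
      · exact fun h3 h4 => hx' (h3.1 h4)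
      · exact fun h3 => iff_of_false h3 hx'
    have h2 : ∀ z, Odd (σ z + σ x) ↔ Even (σ z) := fun z => by
      rw [← Nat.not_even_iff_odd, h1, Nat.not_odd_iff_even]
    simp only [h1, h2]
    exact h.symm

lemma q_two (hσ : IsEulerian σ) {x y : Q} (hxy : x < y) (hr : σ y = σ x + 2) :
    ∃ a b, a ≠ b ∧ ∀ z, (x < z ∧ z < y) ↔ (z = a ∨ z = b) := by
  have h := q_par hσ hxy
  have h1 : {z | x ≤ z ∧ z ≤ y ∧ Even (σ z + σ x)} = {x, y} := by
    ext z
    simp only [Set.mem_ofPred_eq, Set.mem_insert_iff, Set.mem_singleton_iff]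
    constructor
    · rintro ⟨h2, h3, h4⟩
      by_contra hne
      rw [not_or] at hne
      have h5 := q_mono hσ.1 (lt_of_le_of_ne h2 (Ne.symm hne.1))
      have h6 := q_mono hσ.1 (lt_of_le_of_ne h3 hne.2)
      obtain ⟨k, hk⟩ := h4
      omega
    · rintro (rfl | rfl)
      · exact ⟨le_rfl, hxy.le, by simp⟩
      · exact ⟨hxy.le, le_rfl, ⟨σ x + 1, by omega⟩⟩
  have h2 : {z | x ≤ z ∧ z ≤ y ∧ Odd (σ z + σ x)} = {z | x < z ∧ z < y} := by
    ext z
    simp only [Set.mem_ofPred_eq]
    constructor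
    · rintro ⟨h2, h3, ⟨k, hk⟩⟩
      refine ⟨lt_of_le_of_ne h2 ?_, lt_of_le_of_ne h3 ?_⟩
      · rintro rfl; omega
      · rintro rfl; omega
    · rintro ⟨h2, h3⟩
      have h5 := q_mono hσ.1 h2
      have h6 := q_mono hσ.1 h3
      exact ⟨h2.le, h3.le, ⟨σ x, by omega⟩⟩
  rw [h1, h2, Set.ncard_pair hxy.ne] at h
  obtain ⟨a, b, hab, h3⟩ := Set.ncard_eq_two.1 h.symm
  refine ⟨a, b, hab, fun z => ?_⟩
  have h4 : z ∈ {z | x < z ∧ z < y} ↔ z ∈ ({a, b} : Set Q) := by rw [h3]
  simpa using h4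

lemma q_four (hσ : IsEulerian σ) {x y : Q} (hxy : x < y) {R : ℕ} (hx : σ x + 2 = R)
    (hy : σ y = R + 2) :
    {z | x < z ∧ z < y ∧ σ z = R}.ncard + 2 =
      {z | x < z ∧ z < y ∧ σ z + 1 = R}.ncard + {z | x < z ∧ z < y ∧ σ z = R + 1}.ncard := by
  have h := q_par hσ hxy
  have h1 : {z | x ≤ z ∧ z ≤ y ∧ Even (σ z + σ x)} = {z | x < z ∧ z < y ∧ σ z = R} ∪ {x, y} := by
    ext z
    simp only [Set.mem_ofPred_eq, Set.mem_insert_iff, Set.mem_singleton_iff, Set.mem_union]
    constructor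
    · rintro ⟨h2, h3, h4⟩
      by_cases hne : z = x ∨ z = y
      · exact Or.inr hne
      · left
        rw [not_or] at hne
        have h7 := lt_of_le_of_ne h2 (Ne.symm hne.1)
        have h8 := lt_of_le_of_ne h3 hne.2
        have h5 := q_mono hσ.1 h7
        have h6 := q_mono hσ.1 h8
        obtain ⟨k, hk⟩ := h4
        exact ⟨h7, h8, by omega⟩
    · rintro (⟨h2, h3, h4⟩ | rfl | rfl)
      · exact ⟨h2.le, h3.le, ⟨σ x + 1, by omega⟩⟩
      · exact ⟨le_rfl, hxy.le, by simp⟩
      · exact ⟨hxy.le, le_rfl, ⟨σ x + 2, by omega⟩⟩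
  have h2 : {z | x ≤ z ∧ z ≤ y ∧ Odd (σ z + σ x)} =
      {z | x < z ∧ z < y ∧ σ z + 1 = R} ∪ {z | x < z ∧ z < y ∧ σ z = R + 1} := by
    ext z
    simp only [Set.mem_ofPred_eq, Set.mem_union]
    constructor
    · rintro ⟨h2, h3, ⟨k, hk⟩⟩
      have h7 : x < z := lt_of_le_of_ne h2 (by rintro rfl; omega)
      have h8 : z < y := lt_of_le_of_ne h3 (by rintro rfl; omega)
      have h5 := q_mono hσ.1 h7
      have h6 := q_mono hσ.1 h8
      have h9 : σ z + 1 = R ∨ σ z = R + 1 := by omega
      rcases h9 with h9 | h9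
      · exact Or.inl ⟨h7, h8, h9⟩
      · exact Or.inr ⟨h7, h8, h9⟩
    · rintro (⟨h2, h3, h4⟩ | ⟨h2, h3, h4⟩)
      · exact ⟨h2.le, h3.le, ⟨σ x, by omega⟩⟩
      · exact ⟨h2.le, h3.le, ⟨σ x + 1, by omega⟩⟩
  rw [h1, h2, Set.ncard_union_eq ?_ (Set.toFinite _) (Set.toFinite _),
    Set.ncard_union_eq ?_ (Set.toFinite _) (Set.toFinite _), Set.ncard_pair hxy.ne] at h
  · exact h
  · rw [Set.disjoint_left]
    rintro z ⟨_, _, h3⟩ ⟨_, _, h4⟩
    omega
  · rw [Set.disjoint_left]
    rintro z ⟨h3, h4, _⟩ (h5 | h5)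
    · exact h3.ne' h5
    · exact h4.ne h5

end QFacts

section Asm

variable {L : Type u} [PartialOrder L] [Finite L] {ρ : L → ℕ} (h : PL L ρ)
  {Q : Type v} [PartialOrder Q] [BoundedOrder Q] [Finite Q] {σ : Q → ℕ} (hσ : IsEulerian σ)
  {R : ℕ} {f : Q → L} {g : L → Q}
  (hf : ∀ q, σ q ≠ R → ρ (f q) = σ q) (hg : ∀ x, ρ x ≠ R → σ (g x) = ρ x)
  (hgf : ∀ q, σ q ≠ R → g (f q) = q) (hfg : ∀ x, ρ x ≠ R → f (g x) = x)
  (hgle : ∀ x x', ρ x ≠ R → ρ x' ≠ R → (g x ≤ g x' ↔ x ≤ x'))

include hgle in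
omit [Finite L] [BoundedOrder Q] [Finite Q] in
lemma g_lt {x x' : L} (hx : ρ x ≠ R) (hx' : ρ x' ≠ R) : g x < g x' ↔ x < x' := by
  rw [lt_iff_le_not_ge, lt_iff_le_not_ge, hgle _ _ hx hx', hgle _ _ hx' hx]

include h hσ hf hg hgf hfg hgle

lemma sys {top : L} (htop : ∀ x, x ≤ top) (hR : 2 ≤ R) (hrt : R + 2 ≤ ρ top) :
    Sys ρ R (E := {e : Q // σ e = R}) (fun x e => g x < e.1) (fun e y => e.1 < g y) where
  down := by
    intro x x' e hx hr hb
    have h1 := h.le_rank hx
    exact lt_of_le_of_lt ((hgle _ _ (by omega) (by omega)).2 hx) hb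
  up := by
    intro y y' e hy hr hb
    have h1 := h.le_rank hy
    exact lt_of_lt_of_le hb ((hgle _ _ (by omega) (by omega)).2 hy)
  lt := by
    intro x y e hx hy h1 h2
    exact (g_lt hgle (by omega) (by omega)).1 (h1.trans h2)
  exz := by
    intro e
    have h1 := hσ.1.1
    obtain ⟨z, _, h3, h4⟩ := (q_mid hσ.1 (bot_le : (⊥ : Q) ≤ e.1)).2 (R - 2) (by omega)
      (by rw [e.2]; omega)
    refine ⟨f z, ?_, ?_⟩
    · rw [hf z (by omega)]; omega
    · show g (f z) < e.1
      rw [hgf z (by omega)]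
      refine lt_of_le_of_ne h3 fun heq => ?_
      rw [heq, e.2] at h4
      omega
  exw := by
    intro e
    have h1 := (q_mid hσ.1 (le_top : g top ≤ ⊤)).1
    rw [hg top (by omega)] at h1
    obtain ⟨z, h3, _, h4⟩ := (q_mid hσ.1 (le_top : e.1 ≤ ⊤)).2 (R + 2) (by rw [e.2]; omega)
      (by omega)
    refine ⟨f z, ?_, ?_⟩
    · rw [hf z (by omega)]; omega
    · show e.1 < g (f z)
      rw [hgf z (by omega)]
      refine lt_of_le_of_ne h3 fun heq => ?_
      rw [← heq, e.2] at h4
      omega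
  two_below := by
    intro z e hz hb
    have h1 := hg z (by omega)
    obtain ⟨a, b, hab, hall⟩ := q_two hσ hb (by rw [e.2]; omega)
    have hr : ∀ q, g z < q → q < e.1 → σ q + 1 = R := by
      intro q hq hq'
      have h2 := q_mono hσ.1 hq
      have h3 := q_mono hσ.1 hq'
      rw [e.2] at h3
      omega
    have ha := (hall a).2 (Or.inl rfl)
    have hb' := (hall b).2 (Or.inr rfl)
    have ra := hr a ha.1 ha.2
    have rb := hr b hb'.1 hb'.2
    refine ⟨f a, f b, fun heq => hab ?_, fun x => ?_⟩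
    · rw [← hgf a (by omega), ← hgf b (by omega), heq]
    · constructor
      · rintro ⟨h2, h3, h4⟩
        have h5 := (hall (g x)).1 ⟨(g_lt hgle (by omega) (by omega)).2 h2, h4⟩
        rcases h5 with h5 | h5
        · left; rw [← h5, hfg x (by omega)]
        · right; rw [← h5, hfg x (by omega)]
      · rintro (rfl | rfl)
        · refine ⟨?_, ?_, ?_⟩
          · rw [← g_lt hgle (by omega) (by rw [hf a (by omega)]; omega), hgf a (by omega)]
            exact ha.1
          · rw [hf a (by omega)]; exact ra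
          · show g (f a) < e.1
            rw [hgf a (by omega)]; exact ha.2
        · refine ⟨?_, ?_, ?_⟩
          · rw [← g_lt hgle (by omega) (by rw [hf b (by omega)]; omega), hgf b (by omega)]
            exact hb'.1
          · rw [hf b (by omega)]; exact rb
          · show g (f b) < e.1
            rw [hgf b (by omega)]; exact hb'.2
  two_above := by
    intro w e hw hb
    have h1 := hg w (by omega)
    obtain ⟨a, b, hab, hall⟩ := q_two hσ hb (by rw [e.2]; omega)
    have hr : ∀ q, e.1 < q → q < g w → σ q = R + 1 := by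
      intro q hq hq'
      have h2 := q_mono hσ.1 hq
      have h3 := q_mono hσ.1 hq'
      rw [e.2] at h2
      omega
    have ha := (hall a).2 (Or.inl rfl)
    have hb' := (hall b).2 (Or.inr rfl)
    have ra := hr a ha.1 ha.2
    have rb := hr b hb'.1 hb'.2
    refine ⟨f a, f b, fun heq => hab ?_, fun x => ?_⟩
    · rw [← hgf a (by omega), ← hgf b (by omega), heq]
    · constructor
      · rintro ⟨h2, h3, h4⟩
        have h5 := (hall (g x)).1 ⟨h4, (g_lt hgle (by omega) (by omega)).2 h2⟩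
        rcases h5 with h5 | h5
        · left; rw [← h5, hfg x (by omega)]
        · right; rw [← h5, hfg x (by omega)]
      · rintro (rfl | rfl)
        · refine ⟨?_, ?_, ?_⟩
          · rw [← g_lt hgle (by rw [hf a (by omega)]; omega) (by omega), hgf a (by omega)]
            exact ha.2
          · rw [hf a (by omega)]; exact ra
          · show e.1 < g (f a)
            rw [hgf a (by omega)]; exact ha.1
        · refine ⟨?_, ?_, ?_⟩
          · rw [← g_lt hgle (by rw [hf b (by omega)]; omega) (by omega), hgf b (by omega)]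
            exact hb'.2
          · rw [hf b (by omega)]; exact rb
          · show e.1 < g (f b)
            rw [hgf b (by omega)]; exact hb'.1
  two := by
    intro x y hxy hx hy
    have h1 := hg x (by omega)
    have h2 := hg y (by omega)
    obtain ⟨a, b, hab, hall⟩ := q_two hσ ((g_lt hgle (by omega) (by omega)).2 hxy) (by omega)
    have hr : ∀ q, g x < q → q < g y → σ q = R := by
      intro q hq hq'
      have h2 := q_mono hσ.1 hq
      have h3 := q_mono hσ.1 hq'
      omega
    have ha := (hall a).2 (Or.inl rfl)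
    have hb' := (hall b).2 (Or.inr rfl)
    refine ⟨⟨a, hr a ha.1 ha.2⟩, ⟨b, hr b hb'.1 hb'.2⟩, fun heq => hab (congrArg Subtype.val heq),
      fun e => ?_⟩
    rw [Subtype.ext_iff, Subtype.ext_iff]
    exact hall e.1

/-- the isomorphism, from transition functions -/
theorem exists_iso {bot top : L} (hbot : ∀ x, bot ≤ x) (htop : ∀ x, x ≤ top) (hb0 : ρ bot = 0)
    (hR : 2 ≤ R) (hrt : R + 2 ≤ ρ top) : ∃ ψ : Q ≃o L, ∀ q, σ q ≠ R → ψ q = f q := by
  classical
  have := Fintype.ofFinite L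
  have := Fintype.ofFinite Q
  have s := sys h hσ hf hg hgf hfg hgle htop hR hrt
  choose t htR hlow1 hhigh1 using exists_t h s hbot htop hrt
  -- extend the relations
  have hlow : ∀ (e : {e : Q // σ e = R}) (x : L), ρ x < R → (g x < e.1 ↔ x < t e) := by
    intro e x hx
    have he := e.2
    constructor
    · intro h1
      have h2 := hg x (by omega)
      obtain ⟨q, h3, h4, h5⟩ := (q_mid hσ.1 h1.le).2 (R - 1) (by omega) (by omega)
      have h6 : g (f q) = q := hgf q (by omega)
      have h7 : ρ (f q) = σ q := hf q (by omega)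
      have h8 : q < e.1 := lt_of_le_of_ne h4 (by rintro rfl; omega)
      have h9 : f q < t e := (hlow1 e (f q) (by omega)).1 (by rw [h6]; exact h8)
      refine lt_of_le_of_lt ?_ h9
      rw [← hgle x (f q) (by omega) (by omega), h6]
      exact h3
    · intro h1
      have h2 := htR e
      obtain ⟨q, h3, h4, h5⟩ := h.mid h1.le (R - 1) (by omega) (by omega)
      have h6 : g q < e.1 := (hlow1 e q (by omega)).2 (h.lt_of_le h4 (by omega))
      exact lt_of_le_of_lt ((hgle x q (by omega) (by omega)).2 h3) h6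
  have hhigh : ∀ (e : {e : Q // σ e = R}) (y : L), R < ρ y → (e.1 < g y ↔ t e < y) := by
    intro e x hx
    have he := e.2
    constructor
    · intro h1
      have h2 := hg x (by omega)
      obtain ⟨q, h3, h4, h5⟩ := (q_mid hσ.1 h1.le).2 (R + 1) (by omega) (by omega)
      have h6 : g (f q) = q := hgf q (by omega)
      have h7 : ρ (f q) = σ q := hf q (by omega)
      have h8 : e.1 < q := lt_of_le_of_ne h3 (by rintro rfl; omega)
      have h9 : t e < f q := (hhigh1 e (f q) (by omega)).1 (by rw [h6]; exact h8)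
      refine lt_of_lt_of_le h9 ?_
      rw [← hgle (f q) x (by omega) (by omega), h6]
      exact h4
    · intro h1
      have h2 := htR e
      obtain ⟨q, h3, h4, h5⟩ := h.mid h1.le (R + 1) (by omega) (by omega)
      have h6 : e.1 < g q := (hhigh1 e q (by omega)).2 (h.lt_of_le h3 (by omega))
      exact lt_of_lt_of_le h6 ((hgle q x (by omega) (by omega)).2 h4)
  have T2 : ∀ {x y : L}, x < y → ρ x + 1 = R → ρ y = R + 1 → ∃ a b : {e : Q // σ e = R}, a ≠ b ∧
      ∀ e, (x < t e ∧ t e < y) ↔ (e = a ∨ e = b) := by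
    intro x y hxy hx hy
    obtain ⟨a, b, hab, hall⟩ := s.two hxy hx hy
    refine ⟨a, b, hab, fun e => ?_⟩
    rw [← hall e, ← hlow e x (by omega), ← hhigh e y (by omega)]
  have T4 : ∀ {z w : L}, z < w → ρ z + 2 = R → ρ w = R + 2 →
      (univ.filter fun e : {e : Q // σ e = R} => z < t e ∧ t e < w).card + 2 =
        (univ.filter fun x => z < x ∧ x < w ∧ ρ x + 1 = R).card +
          (univ.filter fun y => z < y ∧ y < w ∧ ρ y = R + 1).card := by
    intro z w hzw hz hw
    have h1 := hg z (by omega)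
    have h2 := hg w (by omega)
    have h3 := q_four hσ ((g_lt hgle (by omega) (by omega)).2 hzw) (R := R) (by omega) (by omega)
    have c1 : (univ.filter fun e : {e : Q // σ e = R} => z < t e ∧ t e < w).card =
        {q | g z < q ∧ q < g w ∧ σ q = R}.ncard := by
      rw [← Set.ncard_coe_finset]
      rw [← Set.ncard_image_of_injective _ Subtype.val_injective]
      congr 1
      ext q
      simp only [coe_filter, mem_univ, true_and, Set.mem_image, Set.mem_ofPred_eq, Subtype.exists,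
        exists_and_right, exists_eq_right]
      constructor
      · rintro ⟨h4, h5, h6⟩
        exact ⟨(hlow ⟨q, h4⟩ z (by omega)).2 h5, (hhigh ⟨q, h4⟩ w (by omega)).2 h6, h4⟩
      · rintro ⟨h5, h6, h4⟩
        exact ⟨h4, (hlow ⟨q, h4⟩ z (by omega)).1 h5, (hhigh ⟨q, h4⟩ w (by omega)).1 h6⟩
    have c2 : ∀ (p : ℕ → Prop), (∀ k, p k → k ≠ R) →
        (univ.filter fun x => z < x ∧ x < w ∧ p (ρ x)).card =
          {q | g z < q ∧ q < g w ∧ p (σ q)}.ncard := by
      intro p hp
      rw [← Set.ncard_coe_finset]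
      have h4 : {q | g z < q ∧ q < g w ∧ p (σ q)} =
          g '' (↑(univ.filter fun x => z < x ∧ x < w ∧ p (ρ x)) : Set L) := by
        ext q
        simp only [coe_filter, mem_univ, true_and, Set.mem_image, Set.mem_ofPred_eq]
        constructor
        · rintro ⟨h5, h6, h7⟩
          have h8 := hp _ h7
          have h9 := hf q h8
          refine ⟨f q, ⟨?_, ?_, ?_⟩, hgf q h8⟩
          · rw [← g_lt hgle (by omega) (by omega), hgf q h8]; exact h5
          · rw [← g_lt hgle (by omega) (by omega), hgf q h8]; exact h6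
          · rw [h9]; exact h7
        · rintro ⟨x, ⟨h5, h6, h7⟩, rfl⟩
          have h8 := hp _ h7
          refine ⟨(g_lt hgle (by omega) (by omega)).2 h5, (g_lt hgle (by omega) (by omega)).2 h6, ?_⟩
          rw [hg x h8]; exact h7
      rw [h4, Set.ncard_image_of_injOn]
      intro x hx x' hx' heq
      simp only [coe_filter, mem_univ, true_and, Set.mem_ofPred_eq] at hx hx'
      rw [← hfg x (hp _ hx.2.2), ← hfg x' (hp _ hx'.2.2), heq]
    have d1 := c2 (fun k => k + 1 = R) (fun k hk => by omega)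
    have d2 := c2 (fun k => k = R + 1) (fun k hk => by omega)
    rw [c1]
    rw [← d1, ← d2] at h3
    convert h3
  have hmul : ∀ τ, ρ τ = R → mul t τ = 1 := by
    intro τ hτ
    obtain ⟨z, _, h2, h3⟩ := h.mid (hbot τ) (R - 2) (by omega) (by omega)
    obtain ⟨w, h5, _, h6⟩ := h.mid (htop τ) (R + 2) (by omega) (by omega)
    exact mul_eq_one h t htR T2 T4 (z := z) (w := w) (by omega) h6 hτ (h.lt_of_le h2 (by omega))
      (h.lt_of_le h5 (by omega))
  have huniq : ∀ τ, ρ τ = R → ∃ e, t e = τ ∧ ∀ e', t e' = τ → e' = e := by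
    intro τ hτ
    have h1 := hmul τ hτ
    unfold mul at h1
    obtain ⟨e, he⟩ := card_eq_one.1 h1
    have h2 : ∀ e', t e' = τ ↔ e' = e := by
      intro e'
      have h3 : e' ∈ (univ.filter fun e => t e = τ) ↔ e' ∈ ({e} : Finset _) := by rw [he]
      simpa using h3
    exact ⟨e, (h2 e).2 rfl, fun e' => (h2 e').1⟩
  have htinj : Function.Injective t := by
    intro e e' hee
    obtain ⟨e0, _, h2⟩ := huniq (t e) (htR e)
    rw [h2 e rfl, h2 e' hee.symm]
  let ψ : Q → L := fun q => if hq : σ q = R then t ⟨q, hq⟩ else f q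
  have ψR : ∀ q (hq : σ q = R), ψ q = t ⟨q, hq⟩ := fun q hq => dif_pos hq
  have ψN : ∀ q, σ q ≠ R → ψ q = f q := fun q hq => dif_neg hq
  have hle : ∀ q q', ψ q ≤ ψ q' ↔ q ≤ q' := by
    intro q q'
    by_cases hq : σ q = R
    · by_cases hq' : σ q' = R
      · rw [ψR q hq, ψR q' hq']
        constructor
        · intro h1
          have h2 := h.eq_of_le h1 (by rw [htR, htR])
          have h3 := htinj h2
          exact (congrArg Subtype.val h3).le
        · intro h1
          rcases h1.lt_or_eq with h2 | h2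
          · have := q_mono hσ.1 h2
            omega
          · subst h2; exact le_rfl
      · rw [ψR q hq, ψN q' hq']
        have h1 := hf q' hq'
        have h2 := hgf q' hq'
        rcases Nat.lt_or_ge (σ q') R with h3 | h3
        · constructor
          · intro h4
            have := h.le_rank h4
            rw [htR] at this
            omega
          · intro h4
            have := (q_mid hσ.1 h4).1
            omega
        · have h4 := hhigh ⟨q, hq⟩ (f q') (by omega)
          rw [h2] at h4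
          constructor
          · intro h5
            exact (h4.2 (h.lt_of_le h5 (by rw [htR]; omega))).le
          · intro h5
            exact (h4.1 (lt_of_le_of_ne h5 (by rintro rfl; exact hq' hq))).le
    · by_cases hq' : σ q' = R
      · rw [ψN q hq, ψR q' hq']
        have h1 := hf q hq
        have h2 := hgf q hq
        rcases Nat.lt_or_ge (σ q) R with h3 | h3
        · have h4 := hlow ⟨q', hq'⟩ (f q) (by omega)
          rw [h2] at h4
          constructor
          · intro h5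
            exact (h4.2 (h.lt_of_le h5 (by rw [htR]; omega))).le
          · intro h5
            exact (h4.1 (lt_of_le_of_ne h5 (by rintro rfl; exact hq hq'))).le
        · constructor
          · intro h4
            have := h.le_rank h4
            rw [htR] at this
            omega
          · intro h4
            have := (q_mid hσ.1 h4).1
            omega
      · rw [ψN q hq, ψN q' hq']
        have h1 := hf q hq
        have h2 := hf q' hq'
        rw [← hgle (f q) (f q') (by omega) (by omega), hgf q hq, hgf q' hq']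
  have hsurj : Function.Surjective ψ := by
    intro x
    by_cases hx : ρ x = R
    · obtain ⟨e, he, _⟩ := huniq x hx
      exact ⟨e.1, by rw [ψR e.1 e.2]; exact he⟩
    · refine ⟨g x, ?_⟩
      rw [ψN (g x) (by rw [hg x hx]; exact hx), hfg x hx]
  refine ⟨RelIso.ofSurjective (OrderEmbedding.ofMapLEIff ψ hle) hsurj, fun q hq => ?_⟩
  exact ψN q hq

end Asm

/-- the isomorphism, from an identification of the elements outside rank `R` -/
theorem exists_iso' {L : Type u} [PartialOrder L] [Finite L] {ρ : L → ℕ} (h : PL L ρ)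
    {Q : Type v} [PartialOrder Q] [BoundedOrder Q] [Finite Q] {σ : Q → ℕ} (hσ : IsEulerian σ)
    {R : ℕ} (φ : {q : Q // σ q ≠ R} ≃o {x : L // ρ x ≠ R}) (hφ : ∀ q, ρ (φ q).1 = σ q.1)
    {bot top : L} (hbot : ∀ x, bot ≤ x) (htop : ∀ x, x ≤ top) (hb0 : ρ bot = 0)
    (hR : 2 ≤ R) (hrt : R + 2 ≤ ρ top) :
    ∃ ψ : Q ≃o L, ∀ q : {q : Q // σ q ≠ R}, ψ q.1 = (φ q).1 := by
  classical
  let f : Q → L := fun q => if hq : σ q ≠ R then (φ ⟨q, hq⟩).1 else top
  let g : L → Q := fun x => if hx : ρ x ≠ R then (φ.symm ⟨x, hx⟩).1 else ⊤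
  have f1 : ∀ q (hq : σ q ≠ R), f q = (φ ⟨q, hq⟩).1 := fun q hq => dif_pos hq
  have g1 : ∀ x (hx : ρ x ≠ R), g x = (φ.symm ⟨x, hx⟩).1 := fun x hx => dif_pos hx
  have hf : ∀ q, σ q ≠ R → ρ (f q) = σ q := fun q hq => by rw [f1 q hq, hφ]
  have hg : ∀ x, ρ x ≠ R → σ (g x) = ρ x := fun x hx => by
    rw [g1 x hx, ← hφ, OrderIso.apply_symm_apply]
  have hgf : ∀ q, σ q ≠ R → g (f q) = q := by
    intro q hq
    have h1 : ρ (f q) ≠ R := by rw [hf q hq]; exact hq
    rw [g1 (f q) h1]
    have h2 : (⟨f q, h1⟩ : {x : L // ρ x ≠ R}) = φ ⟨q, hq⟩ := Subtype.ext (f1 q hq)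
    rw [h2, OrderIso.symm_apply_apply]
  have hfg : ∀ x, ρ x ≠ R → f (g x) = x := by
    intro x hx
    have h1 : σ (g x) ≠ R := by rw [hg x hx]; exact hx
    rw [f1 (g x) h1]
    have h2 : (⟨g x, h1⟩ : {q : Q // σ q ≠ R}) = φ.symm ⟨x, hx⟩ := Subtype.ext (g1 x hx)
    rw [h2, OrderIso.apply_symm_apply]
  have hgle : ∀ x x', ρ x ≠ R → ρ x' ≠ R → (g x ≤ g x' ↔ x ≤ x') := by
    intro x x' hx hx'
    rw [g1 x hx, g1 x' hx', Subtype.coe_le_coe, OrderIso.le_iff_le, Subtype.mk_le_mk]
  obtain ⟨ψ, hψ⟩ := exists_iso h hσ hf hg hgf hfg hgle hbot htop hb0 hR hrt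
  exact ⟨ψ, fun q => by rw [hψ q.1 q.2, f1 q.1 q.2]⟩

end Pool.Agent.R475.Eul
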