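import Mathlib

/-!
# Faces of a finite set of vectors
-/

set_option autoImplicit false

namespace Pool.Agent.R475.Eul

open Set Module

variable {V : Type} [AddCommGroup V] [Module ℝ V] [FiniteDimensional ℝ V]

/-- faces of the set of vectors `T` -/
def IsF (T A : Set V) : Prop := ∃ f : V →ₗ[ℝ] ℝ, (∀ v ∈ T, 0 ≤ f v) ∧ A = {v | v ∈ T ∧ f v = 0}

/-- the rank of a set of vectors -/
noncomputable def rk (A : Set V) : ℕ := finrank ℝ (Submodule.span ℝ A)

variable {T A B : Set V}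

omit [FiniteDimensional ℝ V] in
lemma IsF.subset (h : IsF T A) : A ⊆ T := by
  obtain ⟨f, _, rfl⟩ := h
  exact fun v hv => hv.1

omit [FiniteDimensional ℝ V] in
lemma IsF.inter (h : IsF T A) (h' : IsF T B) : IsF T (A ∩ B) := by
  obtain ⟨f, hf, rfl⟩ := h
  obtain ⟨g, hg, rfl⟩ := h'
  refine ⟨f + g, fun v hv => add_nonneg (hf v hv) (hg v hv), ?_⟩
  ext v
  constructor
  · rintro ⟨⟨hv, h1⟩, _, h2⟩
    exact ⟨hv, by rw [LinearMap.add_apply, h1, h2, add_zero]⟩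
  · rintro ⟨hv, h1⟩
    rw [LinearMap.add_apply] at h1
    have h2 := hf v hv
    have h3 := hg v hv
    exact ⟨⟨hv, by linarith⟩, hv, by linarith⟩

omit [FiniteDimensional ℝ V] in
lemma eq_zero_of_span {f : V →ₗ[ℝ] ℝ} (hf : ∀ v ∈ A, f v = 0) {v : V}
    (hv : v ∈ Submodule.span ℝ A) : f v = 0 := by
  have h1 : Submodule.span ℝ A ≤ LinearMap.ker f := by
    rw [Submodule.span_le]
    intro w hw
    exact LinearMap.mem_ker.2 (hf w hw)
  exact LinearMap.mem_ker.1 (h1 hv)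

omit [FiniteDimensional ℝ V] in
lemma IsF.mem_of_span (h : IsF T A) {v : V} (hv : v ∈ T) (hs : v ∈ Submodule.span ℝ A) : v ∈ A := by
  obtain ⟨f, hf, rfl⟩ := h
  exact ⟨hv, eq_zero_of_span (fun w hw => hw.2) hs⟩

lemma rk_mono (h : A ⊆ B) : rk A ≤ rk B := Submodule.finrank_mono (Submodule.span_mono h)

lemma rk_lt (h : IsF T A) (hB : B ⊆ T) (hAB : A ⊆ B) (hne : ∃ v ∈ B, v ∉ A) : rk A < rk B := by
  obtain ⟨v, hvB, hvA⟩ := hne
  refine Submodule.finrank_lt_finrank_of_lt (lt_of_le_of_ne (Submodule.span_mono hAB) ?_)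
  intro heq
  exact hvA (h.mem_of_span (hB hvB) (heq ▸ Submodule.subset_span hvB))

lemma eq_of_rk_le (h : IsF T A) (hB : B ⊆ T) (hAB : A ⊆ B) (hr : rk B ≤ rk A) : A = B := by
  refine Subset.antisymm hAB fun v hv => ?_
  by_contra hc
  exact absurd (rk_lt h hB hAB ⟨v, hv, hc⟩) (not_lt.2 hr)

omit [FiniteDimensional ℝ V] in
/-- a face of a face is a face -/
lemma IsF.sub (hT : T.Finite) {w : Set V} (hw : IsF T w) (g : V →ₗ[ℝ] ℝ)
    (hg : ∀ v ∈ w, 0 ≤ g v) : IsF T {v | v ∈ w ∧ g v = 0} := by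
  obtain ⟨f, hf, rfl⟩ := hw
  obtain ⟨N, hN⟩ : ∃ N : ℝ, ∀ v ∈ T, 0 < f v → 0 < N * f v + g v := by
    have h1 : ∀ v : V, ∃ N : ℝ, 0 < f v → ∀ N' ≥ N, 0 < N' * f v + g v := by
      intro v
      by_cases hv : 0 < f v
      · refine ⟨(1 - g v) / f v, fun _ N' hN' => ?_⟩
        have h2 : 1 - g v ≤ N' * f v := by
          have := mul_le_mul_of_nonneg_right hN' hv.le
          rwa [div_mul_cancel₀ _ hv.ne'] at this
        linarith
      · exact ⟨0, fun h => absurd h hv⟩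
    choose M hM using h1
    obtain ⟨N, hN⟩ := (hT.image M).bddAbove
    exact ⟨N, fun v hv hfv => hM v hfv N (hN ⟨v, hv, rfl⟩)⟩
  refine ⟨N • f + g, fun v hv => ?_, ?_⟩
  · rw [LinearMap.add_apply, LinearMap.smul_apply, smul_eq_mul]
    rcases (hf v hv).lt_or_eq with h1 | h1
    · exact (hN v hv h1).le
    · rw [← h1, mul_zero, zero_add]
      exact hg v ⟨hv, h1.symm⟩
  · ext v
    constructor
    · rintro ⟨⟨hv, h1⟩, h2⟩
      refine ⟨hv, ?_⟩
      rw [LinearMap.add_apply, LinearMap.smul_apply, h1, h2, smul_zero, add_zero]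
    · rintro ⟨hv, h1⟩
      rw [LinearMap.add_apply, LinearMap.smul_apply, smul_eq_mul] at h1
      rcases (hf v hv).lt_or_eq with h2 | h2
      · have := hN v hv h2
        linarith
      · refine ⟨⟨hv, h2.symm⟩, ?_⟩
        rw [← h2, mul_zero, zero_add] at h1
        exact h1

omit [FiniteDimensional ℝ V] in
/-- tilting -/
lemma tilt (hT : T.Finite) {z w : Set V} (hw : IsF T w) (hne : ∃ v ∈ w, v ∉ z)
    {f g : V →ₗ[ℝ] ℝ} (hf0 : ∀ v ∈ z, f v = 0) (hfp : ∀ v ∈ w, v ∉ z → 0 < f v)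
    (hg0 : ∀ v ∈ z, g v = 0) : ∃ m : ℝ, IsF T {v | v ∈ w ∧ g v = m * f v} ∧
      (∃ v ∈ w, v ∉ z ∧ g v = m * f v) ∧ ∀ v ∈ w, m * f v ≤ g v := by
  have hfin : (w \ z).Finite := (hT.subset hw.subset).subset sdiff_subset
  obtain ⟨v1, hv1, hv1z⟩ := hne
  obtain ⟨v0, hv0, hmin⟩ := hfin.exists_minimalFor (fun v => g v / f v) (w \ z) ⟨v1, hv1, hv1z⟩
  have hmin' : ∀ v ∈ w, v ∉ z → g v0 / f v0 ≤ g v / f v := by
    intro v hv hvz
    by_contra hc
    push Not at hc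
    exact absurd (hmin ⟨hv, hvz⟩ hc.le) (not_le.2 hc)
  have hle : ∀ v ∈ w, g v0 / f v0 * f v ≤ g v := by
    intro v hv
    by_cases hvz : v ∈ z
    · rw [hf0 v hvz, hg0 v hvz, mul_zero]
    · have h1 := hfp v hv hvz
      have h2 := mul_le_mul_of_nonneg_right (hmin' v hv hvz) h1.le
      rwa [div_mul_cancel₀ _ h1.ne'] at h2
  refine ⟨g v0 / f v0, ?_, ⟨v0, hv0.1, hv0.2, ?_⟩, hle⟩
  · have h1 := hw.sub hT (g - (g v0 / f v0) • f) (fun v hv => by
      rw [LinearMap.sub_apply, LinearMap.smul_apply, smul_eq_mul, sub_nonneg]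
      exact hle v hv)
    convert h1 using 1
    ext v
    rw [mem_ofPred_eq, mem_ofPred_eq, LinearMap.sub_apply, LinearMap.smul_apply, smul_eq_mul,
      sub_eq_zero]
  · rw [div_mul_cancel₀ _ (hfp v0 hv0.1 hv0.2).ne']

/-- a functional which exposes the face -/
lemma IsF.exists_f {z : Set V} (hz : IsF T z) : ∃ f : V →ₗ[ℝ] ℝ, (∀ v ∈ z, f v = 0) ∧
    (∀ v ∈ T, v ∉ z → 0 < f v) ∧ ∀ v ∈ T, 0 ≤ f v := by
  obtain ⟨f, hf, rfl⟩ := hz
  refine ⟨f, fun v hv => hv.2, fun v hv hvz => ?_, hf⟩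
  rcases (hf v hv).lt_or_eq with h1 | h1
  · exact h1
  · exact absurd ⟨hv, h1.symm⟩ hvz

/-- `a` covers `z` -/
lemma span_atom {z a : Set V} (hz : IsF T z) (ha : a ⊆ T) (hza : z ⊆ a) (hr : rk a = rk z + 1)
    {v : V} (hv : v ∈ a) (hvz : v ∉ z) :
    Submodule.span ℝ a = Submodule.span ℝ z ⊔ Submodule.span ℝ {v} := by
  have h1 : Submodule.span ℝ z ⊔ Submodule.span ℝ {v} ≤ Submodule.span ℝ a :=
    sup_le (Submodule.span_mono hza) (Submodule.span_mono (singleton_subset_iff.2 hv))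
  have h2 : Submodule.span ℝ z < Submodule.span ℝ z ⊔ Submodule.span ℝ {v} := by
    refine lt_of_le_of_ne le_sup_left fun heq => ?_
    refine hvz (hz.mem_of_span (ha hv) ?_)
    rw [heq]
    exact Submodule.mem_sup_right (Submodule.mem_span_singleton_self v)
  have h3 := Submodule.finrank_lt_finrank_of_lt h2
  refine (Submodule.eq_of_le_of_finrank_le h1 ?_).symm
  unfold rk at hr
  omega

lemma prop_atom {z a : Set V} (hz : IsF T z) (ha : a ⊆ T) (hza : z ⊆ a) (hr : rk a = rk z + 1)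
    {v v' : V} (hv : v ∈ a) (hvz : v ∉ z) (hv' : v' ∈ a) :
    ∃ c : ℝ, ∀ g : V →ₗ[ℝ] ℝ, (∀ u ∈ z, g u = 0) → g v' = c * g v := by
  have h1 : v' ∈ Submodule.span ℝ z ⊔ Submodule.span ℝ {v} := by
    rw [← span_atom hz ha hza hr hv hvz]
    exact Submodule.subset_span hv'
  obtain ⟨s, hs, q, hq, rfl⟩ := Submodule.mem_sup.1 h1
  obtain ⟨c, rfl⟩ := Submodule.mem_span_singleton.1 hq
  refine ⟨c, fun g hg => ?_⟩
  rw [map_add, eq_zero_of_span hg hs, zero_add, map_smul, smul_eq_mul]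

/-- existence of atoms -/
lemma exists_atom (hT : T.Finite) {z w : Set V} (hz : IsF T z) (hw : IsF T w) (hzw : z ⊆ w)
    (hne : ∃ v ∈ w, v ∉ z) : ∃ a, IsF T a ∧ z ⊆ a ∧ a ⊆ w ∧ rk a = rk z + 1 := by
  classical
  have hex : ∃ k, ∃ a, IsF T a ∧ z ⊆ a ∧ a ⊆ w ∧ (∃ v ∈ a, v ∉ z) ∧ rk a = k :=
    ⟨rk w, w, hw, hzw, Subset.rfl, hne, rfl⟩
  obtain ⟨a, ha, hza, haw, hne', hr⟩ := Nat.find_spec hex
  have hmin : ∀ a', IsF T a' → z ⊆ a' → a' ⊆ w → (∃ v ∈ a', v ∉ z) → rk a ≤ rk a' := by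
    intro a' h1 h2 h3 h4
    rw [hr]
    exact Nat.find_min' hex ⟨a', h1, h2, h3, h4, rfl⟩
  refine ⟨a, ha, hza, haw, ?_⟩
  obtain ⟨f, hf0, hfp, _⟩ := hz.exists_f
  obtain ⟨v0, hv0, hv0z⟩ := hne'
  have hle : Submodule.span ℝ a ≤ Submodule.span ℝ z ⊔ Submodule.span ℝ {v0} := by
    rw [Submodule.span_le]
    intro v hv
    by_contra hc
    have hc : v ∉ Submodule.span ℝ z ⊔ Submodule.span ℝ {v0} := hc
    obtain ⟨g, hg1, hg2⟩ := Submodule.exists_le_ker_of_notMem hc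
    have hgz : ∀ u ∈ z, g u = 0 := fun u hu =>
      LinearMap.mem_ker.1 (hg2 (Submodule.mem_sup_left (Submodule.subset_span hu)))
    have hg0 : g v0 = 0 :=
      LinearMap.mem_ker.1 (hg2 (Submodule.mem_sup_right (Submodule.mem_span_singleton_self v0)))
    obtain ⟨m, hm1, ⟨v2, hv2, hv2z, hm2⟩, _⟩ := tilt hT ha ⟨v0, hv0, hv0z⟩ hf0
      (fun u hu huz => hfp u (ha.subset hu) huz) hgz
    have heq : {v | v ∈ a ∧ g v = m * f v} = a := by
      refine eq_of_rk_le hm1 ha.subset (fun u hu => hu.1) (hmin _ hm1 ?_ ?_ ?_)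
      · intro u hu
        exact ⟨hza hu, by rw [hgz u hu, hf0 u hu, mul_zero]⟩
      · exact fun u hu => haw hu.1
      · exact ⟨v2, ⟨hv2, hm2⟩, hv2z⟩
    have h3 : g v0 = m * f v0 := by
      have h4 : v0 ∈ {v | v ∈ a ∧ g v = m * f v} := by rw [heq]; exact hv0
      exact h4.2
    have h4 : g v = m * f v := by
      have h4 : v ∈ {v | v ∈ a ∧ g v = m * f v} := by rw [heq]; exact hv
      exact h4.2
    have h5 := hfp v0 (ha.subset hv0) hv0z
    have h6 : m = 0 := by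
      rw [hg0] at h3
      rcases mul_eq_zero.1 h3.symm with h7 | h7
      · exact h7
      · exact absurd h7 h5.ne'
    rw [h6, zero_mul] at h4
    exact hg1 h4
  have h1 : rk a ≤ rk z + 1 := by
    refine (Submodule.finrank_mono hle).trans
      ((Submodule.finrank_add_le_finrank_add_finrank _ _).trans ?_)
    exact Nat.add_le_add_left ((finrank_span_le_card ({v0} : Set V)).trans (by simp)) _
  have h2 := rk_lt hz ha.subset hza ⟨v0, hv0, hv0z⟩
  omega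

end Pool.Agent.R475.Eul
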